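import Pool.Agent.KS6_51.BW.M3

set_option autoImplicit false

/-!
Mass transference at the critical exponent, from balls to arbitrary open sets: if at almost every
point `x` of a cube there are arbitrarily small balls around `x` in which the set `U` has an
`s`-dimensional content comparable to the volume of the ball, then `U` has full `s`-dimensional
content in the cube.
-/

namespace Pool.Agent.KS6_51.HG

open MeasureTheory Filter Topology Set
open scoped ENNReal
open Pool.Agent.KS6_51.BW

variable {m : ℕ}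

/-- In arbitrarily small balls around `x` the set `U` has content comparable to the volume. -/
def Rich (s : ℝ) (U : Set (Fin m → ℝ)) (x : Fin m → ℝ) : Prop :=
  ∃ c : ℝ, 0 < c ∧ ∀ r : ℝ, 0 < r → ∃ ρ : ℝ, 0 < ρ ∧ ρ < r ∧
    ∀ (ι : Type) [Countable ι] (u : ι → Fin m → ℝ) (ℓ : ι → ℝ), (∀ j, 0 ≤ ℓ j) →
      (∀ y ∈ U, y ∈ Metric.closedBall x ρ → ∃ j, ∀ i, y i ∈ Ico (u j i) (u j i + ℓ j)) →
      ENNReal.ofReal (c * ρ ^ m) ≤ ∑' j, ENNReal.ofReal (ℓ j) ^ s

theorem tsum_small {ι : Type} [Countable ι] {s : ℝ} (hs : 0 < s) (ℓ : ι → ℝ) (hℓ : ∀ j, 0 ≤ ℓ j)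
    (hfin : ∑' j, ENNReal.ofReal (ℓ j) ^ s ≠ ⊤) :
    Tendsto (fun k : ℕ => ∑' j, if ℓ j ≤ 1 / ((k : ℝ) + 1) then ENNReal.ofReal (ℓ j) ^ s else 0)
      atTop (𝓝 0) := by
  classical
  letI : MeasurableSpace ι := ⊤
  have h := tendsto_lintegral_of_dominated_convergence (μ := (Measure.count : Measure ι))
    (F := fun (k : ℕ) j => if ℓ j ≤ 1 / ((k : ℝ) + 1) then ENNReal.ofReal (ℓ j) ^ s else 0)
    (f := fun _ => 0) (fun j => ENNReal.ofReal (ℓ j) ^ s) (fun k => measurable_from_top)
    (fun k => Eventually.of_forall fun j => by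
      show (if ℓ j ≤ 1 / ((k : ℝ) + 1) then ENNReal.ofReal (ℓ j) ^ s else 0) ≤ _
      split_ifs
      · exact le_rfl
      · exact zero_le)
    (by rw [lintegral_count]; exact hfin)
    (Eventually.of_forall fun j => by
      rcases (hℓ j).eq_or_lt with h0 | h0
      · have e : (fun k : ℕ => if ℓ j ≤ 1 / ((k : ℝ) + 1) then ENNReal.ofReal (ℓ j) ^ s else 0) =
            fun _ => 0 := by
          funext k
          rw [← h0]
          simp [ENNReal.zero_rpow_of_pos hs]
        show Tendsto (fun k : ℕ => if ℓ j ≤ 1 / ((k : ℝ) + 1) then ENNReal.ofReal (ℓ j) ^ s else 0) _ _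
        rw [e]
        exact tendsto_const_nhds
      · have h1 := (tendsto_order.mp (tendsto_one_div_add_atTop_nhds_zero_nat (𝕜 := ℝ))).2 _ h0
        refine Tendsto.congr' ?_ tendsto_const_nhds
        filter_upwards [h1] with k hk
        rw [if_neg (not_le.mpr hk)])
  simp only [lintegral_count, lintegral_zero] at h
  exact h

theorem crit {ι : Type} [Countable ι] (hm : 0 < m) {s : ℝ} (hs : 0 < s)
    (hsm : s ≤ m) (U : Set (Fin m → ℝ)) (a : Fin m → ℝ) {b : ℝ} (hb : 0 < b)
    (hfull : ∀ᵐ x ∂(volume : Measure (Fin m → ℝ)), (∀ i, x i ∈ Ioo (a i) (a i + b)) → Rich s U x)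
    (u : ι → Fin m → ℝ) (ℓ : ι → ℝ) (hℓ : ∀ j, 0 ≤ ℓ j)
    (hcov : ∀ y : Fin m → ℝ, (∀ i, y i ∈ Ioo (a i) (a i + b)) → y ∈ U →
      ∃ j, ∀ i, y i ∈ Ico (u j i) (u j i + ℓ j)) :
    ENNReal.ofReal b ^ s ≤ ∑' j, ENNReal.ofReal (ℓ j) ^ s := by
  classical
  by_contra hcon
  push Not at hcon
  have hm0 : (0 : ℝ) < m := by exact_mod_cast hm
  set S := ∑' j, ENNReal.ofReal (ℓ j) ^ s with hS
  have hSt : S ≠ ⊤ := ne_top_of_lt hcon
  obtain ⟨hlen, hsum1⟩ := vol_small hs hsm hb ℓ hcon
  set O : Set (Fin m → ℝ) := {x | ∀ i, x i ∈ Ioo (a i) (a i + b)} with hO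
  set A : Set (Fin m → ℝ) := ⋃ j, {x | ∀ i, x i ∈ Icc (u j i) (u j i + ℓ j)} with hA
  have hvA : volume A ≤ ∑' j, ENNReal.ofReal (ℓ j) ^ m := by
    refine (measure_iUnion_le _).trans (ENNReal.tsum_le_tsum fun j => ?_)
    rw [vol_Icc]
  have hD : volume (O \ A) ≠ 0 := by
    intro h0
    have h1 : volume O ≤ volume A := by
      calc volume O ≤ volume ((O \ A) ∪ A) := measure_mono (by
            intro x hx
            by_cases hxA : x ∈ A
            · right; exact hxA
            · left; exact ⟨hx, hxA⟩)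
        _ ≤ volume (O \ A) + volume A := measure_union_le _ _
        _ = volume A := by rw [h0, zero_add]
    rw [hO, vol_open] at h1
    exact absurd (h1.trans hvA) (not_le.mpr hsum1)
  -- Borel-Cantelli
  set Bg : ι → Set (Fin m → ℝ) :=
    fun j => {x | ∀ i, x i ∈ Icc (u j i - 4 * ℓ j) (u j i - 4 * ℓ j + 9 * ℓ j)} with hBg
  have hBC : ∀ᵐ x ∂(volume : Measure (Fin m → ℝ)), {j | x ∈ Bg j}.Finite := by
    apply ae_finite_setOfPred_mem
    have h1 : ∀ j, volume (Bg j) = 9 ^ m * ENNReal.ofReal (ℓ j) ^ m := by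
      intro j
      rw [hBg]
      simp only
      rw [vol_Icc (fun i => u j i - 4 * ℓ j) (9 * ℓ j), ENNReal.ofReal_mul (by norm_num), mul_pow]
      norm_num
    simp_rw [h1]
    rw [ENNReal.tsum_mul_left]
    exact ENNReal.mul_ne_top (by simp) (ne_top_of_lt (hsum1.trans_le le_top))
  -- the measures
  set F : ℕ → ι → ℝ≥0∞ := fun k j => if ℓ j ≤ 1 / ((k : ℝ) + 1) then ENNReal.ofReal (ℓ j) ^ s else 0
    with hF
  set ν : ℕ → Measure (Fin m → ℝ) := fun k => Measure.sum (fun j => (F k j) • Measure.dirac (u j))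
    with hν
  have hνball : ∀ k (B : Set (Fin m → ℝ)), MeasurableSet B →
      ν k B = ∑' j, if u j ∈ B then F k j else 0 := by
    intro k B hB
    rw [hν, Measure.sum_apply _ hB]
    apply tsum_congr
    intro j
    rw [Measure.smul_apply, Measure.dirac_apply' _ hB, smul_eq_mul]
    by_cases h : u j ∈ B
    · simp [h]
    · simp [h]
  have hFS : ∀ k, ∑' j, F k j ≤ S := by
    intro k
    apply ENNReal.tsum_le_tsum
    intro j
    simp only [hF]
    split_ifs
    · exact le_rfl
    · exact zero_le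
  have hνuniv : ∀ k, ν k univ = ∑' j, F k j := by
    intro k
    rw [hνball k _ MeasurableSet.univ]
    simp only [mem_univ, if_true]
  have hfinm : ∀ k, IsFiniteMeasure (ν k) := fun k => ⟨by
    rw [hνuniv]
    exact (hFS k).trans_lt hSt.lt_top⟩
  have hder : ∀ᵐ x ∂(volume : Measure (Fin m → ℝ)), ∀ k, Tendsto (fun r =>
      ν k (Metric.closedBall x r) / volume (Metric.closedBall x r)) (𝓝[>] 0)
      (𝓝 ((ν k).rnDeriv volume x)) := by
    rw [ae_all_iff]
    intro k
    haveI := hfinm k
    exact Besicovitch.ae_tendsto_rnDeriv (ν k) (volume : Measure (Fin m → ℝ))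
  set g : ℕ → (Fin m → ℝ) → ℝ≥0∞ := fun k => (ν k).rnDeriv volume with hg
  set G : ℕ → Set (Fin m → ℝ) := fun n => ⋂ k, {x | ENNReal.ofReal (1 / ((n : ℝ) + 1)) ≤ g k x}
    with hG
  have hGm : ∀ n, MeasurableSet (G n) := fun n => MeasurableSet.iInter fun k =>
    measurableSet_le measurable_const (Measure.measurable_rnDeriv _ _)
  -- the main point
  have key : ∀ x, x ∈ O \ A → (x ∈ O → Rich s U x) → {j | x ∈ Bg j}.Finite →
      (∀ k, Tendsto (fun r => ν k (Metric.closedBall x r) / volume (Metric.closedBall x r))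
        (𝓝[>] 0) (𝓝 (g k x))) → ∃ n, x ∈ G n := by
    intro x hxD hx1 hx2 hx3
    obtain ⟨c, hc, hrich⟩ := hx1 hxD.1
    -- distance to the finitely many large cubes
    obtain ⟨δ, hδ, hδ'⟩ : ∃ δ : ℝ, 0 < δ ∧ ∀ j, x ∈ Bg j →
        ∃ i, x i + δ ≤ u j i ∨ u j i + ℓ j + δ ≤ x i := by
      have h1 : ∀ j, ∃ δ : ℝ, 0 < δ ∧ ∃ i, x i + δ ≤ u j i ∨ u j i + ℓ j + δ ≤ x i := by
        intro j
        have : x ∉ {x : Fin m → ℝ | ∀ i, x i ∈ Icc (u j i) (u j i + ℓ j)} :=
          fun h => hxD.2 (mem_iUnion.mpr ⟨j, h⟩)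
        rw [mem_ofPred_eq] at this
        push Not at this
        obtain ⟨i, hi⟩ := this
        rw [mem_Icc, not_and_or] at hi
        rcases hi with h | h
        · exact ⟨u j i - x i, by linarith [not_le.mp h], i, Or.inl (by linarith)⟩
        · exact ⟨x i - (u j i + ℓ j), by linarith [not_le.mp h], i, Or.inr (by linarith)⟩
      choose g' hg0 hg' using h1
      obtain ⟨δ, hδ1, hδ2⟩ : ∃ δ : ℝ, 0 < δ ∧ ∀ j ∈ hx2.toFinset, δ ≤ g' j := by
        generalize hx2.toFinset = F'
        induction F' using Finset.induction_on with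
        | empty => exact ⟨1, one_pos, fun j hj => absurd hj (Finset.notMem_empty _)⟩
        | insert i F' hi ih =>
          obtain ⟨δ, h1', h2'⟩ := ih
          refine ⟨min δ (g' i), lt_min h1' (hg0 i), fun j hj => ?_⟩
          rcases Finset.mem_insert.mp hj with rfl | hj
          · exact min_le_right _ _
          · exact (min_le_left _ _).trans (h2' j hj)
      refine ⟨δ, hδ1, fun j hj => ?_⟩
      have h3 := hδ2 j (hx2.mem_toFinset.mpr hj)
      obtain ⟨i, hi⟩ := hg' j
      refine ⟨i, ?_⟩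
      rcases hi with h | h
      · left; linarith
      · right; linarith
    -- distance to the boundary
    obtain ⟨θ, hθ, hθ'⟩ : ∃ θ : ℝ, 0 < θ ∧ Metric.ball x θ ⊆ O := by
      have hopen : IsOpen O := by
        have e : O = Set.pi univ fun i => Ioo (a i) (a i + b) := by
          ext x
          simp [hO]
        rw [e]
        exact isOpen_set_pi finite_univ fun i _ => isOpen_Ioo
      exact Metric.isOpen_iff.mp hopen x hxD.1
    obtain ⟨n, hn⟩ := exists_nat_one_div_lt (show (0:ℝ) < c / 4 ^ m by positivity)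
    refine ⟨n, mem_iInter.mpr fun k => ?_⟩
    show ENNReal.ofReal (1 / ((n : ℝ) + 1)) ≤ g k x
    refine (ENNReal.ofReal_le_ofReal hn.le).trans ?_
    refine ge_of_tendsto_of_frequently (hx3 k) ?_
    rw [(nhdsGT_basis (0:ℝ)).frequently_iff]
    intro r hr
    have hk0 : (0:ℝ) < 1 / ((k:ℝ) + 1) := by positivity
    obtain ⟨ρ, hρ0, hρr, hρ⟩ := hrich (min (r / 2) (min (1 / ((k:ℝ) + 1)) (min δ θ)))
      (lt_min (by linarith) (lt_min hk0 (lt_min hδ hθ)))
    have g1 : ρ < r / 2 := hρr.trans_le (min_le_left _ _)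
    have g2 : ρ < 1 / ((k:ℝ) + 1) := hρr.trans_le ((min_le_right _ _).trans (min_le_left _ _))
    have g3 : ρ < δ := hρr.trans_le ((min_le_right _ _).trans ((min_le_right _ _).trans (min_le_left _ _)))
    have g4 : ρ < θ := hρr.trans_le ((min_le_right _ _).trans ((min_le_right _ _).trans (min_le_right _ _)))
    refine ⟨2 * ρ, ⟨by positivity, by linarith⟩, ?_⟩
    -- the content of `U` in the ball of radius `ρ`
    have hcont := hρ {j // ℓ j ≤ 1 / ((k : ℝ) + 1) ∧ u j ∈ Metric.closedBall x (2 * ρ)}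
      (fun j => u j.1) (fun j => ℓ j.1) (fun j => hℓ j.1) (by
        intro y hyU hyx
        have hyO : y ∈ O := hθ' (by
          rw [Metric.mem_ball]
          exact (Metric.mem_closedBall.mp hyx).trans_lt g4)
        obtain ⟨j, hj⟩ := hcov y hyO hyU
        have hyx' : ∀ i, |y i - x i| ≤ ρ := by
          intro i
          rw [← Real.dist_eq]
          exact (dist_le_pi_dist y x i).trans (Metric.mem_closedBall.mp hyx)
        have hnot : x ∉ Bg j := by
          intro hin
          obtain ⟨i, hi⟩ := hδ' j hin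
          have h1 := abs_le.mp (hyx' i)
          rcases hi with h | h
          · linarith [(hj i).1]
          · linarith [(hj i).2]
        rw [hBg] at hnot
        simp only [mem_ofPred_eq] at hnot
        push Not at hnot
        obtain ⟨i, hi⟩ := hnot
        rw [mem_Icc, not_and_or, not_le, not_le] at hi
        have hℓρ : ℓ j ≤ ρ := by
          have h1 := abs_le.mp (hyx' i)
          have h2 := (hj i).1
          have h3 := (hj i).2
          have h4 := hℓ j
          rcases hi with h | h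
          · linarith
          · linarith
        refine ⟨⟨j, hℓρ.trans g2.le, ?_⟩, hj⟩
        rw [Metric.mem_closedBall, dist_pi_le_iff (by positivity)]
        intro i'
        rw [Real.dist_eq, abs_le]
        have h1 := abs_le.mp (hyx' i')
        have h2 := (hj i').1
        have h3 := (hj i').2
        constructor <;> linarith)
    have hνge : ENNReal.ofReal (c * ρ ^ m) ≤ ν k (Metric.closedBall x (2 * ρ)) := by
      refine hcont.trans (le_of_eq ?_)
      rw [hνball k _ measurableSet_closedBall]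
      have := tsum_subtype {j | ℓ j ≤ 1 / ((k : ℝ) + 1) ∧ u j ∈ Metric.closedBall x (2 * ρ)}
        (fun j => ENNReal.ofReal (ℓ j) ^ s)
      refine Eq.trans this ?_
      apply tsum_congr
      intro j
      by_cases h : u j ∈ Metric.closedBall x (2 * ρ)
      · by_cases h' : ℓ j ≤ 1 / ((k : ℝ) + 1)
        · rw [Set.indicator_of_mem (show j ∈ {j | ℓ j ≤ 1 / ((k : ℝ) + 1) ∧
            u j ∈ Metric.closedBall x (2 * ρ)} from ⟨h', h⟩)]
          simp only [if_pos h, hF, if_pos h']
        · rw [Set.indicator_of_notMem (fun h'' => h' h''.1)]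
          simp only [if_pos h, hF, if_neg h']
      · rw [Set.indicator_of_notMem (fun h'' => h h''.2)]
        simp only [if_neg h]
    rw [ENNReal.le_div_iff_mul_le (Or.inl (by
        rw [Real.volume_pi_closedBall _ (by positivity), Fintype.card_fin]
        rw [ENNReal.ofReal_ne_zero_iff]
        positivity)) (Or.inl (by
        rw [Real.volume_pi_closedBall _ (by positivity)]
        exact ENNReal.ofReal_ne_top))]
    refine le_trans (le_of_eq ?_) hνge
    rw [Real.volume_pi_closedBall _ (by positivity), Fintype.card_fin,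
      ← ENNReal.ofReal_mul (by positivity)]
    congr 1
    have : (2 * (2 * ρ)) ^ m = 4 ^ m * ρ ^ m := by
      rw [← mul_pow]
      congr 1
      ring
    rw [this]
    field_simp
  -- some `G n` is not null
  obtain ⟨n, hn⟩ : ∃ n, volume (G n) ≠ 0 := by
    by_contra hno
    push Not at hno
    apply hD
    have hU0 : volume (⋃ n, G n) = 0 := measure_iUnion_null hno
    have hall := hfull.and (hBC.and hder)
    rw [ae_iff] at hall
    refine measure_mono_null (t := (⋃ n, G n) ∪ _) ?_ (measure_union_null hU0 hall)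
    intro x hx
    by_cases hxG : x ∈ ⋃ n, G n
    · exact Or.inl hxG
    · refine Or.inr ?_
      intro hgood
      obtain ⟨n, hn⟩ := key x hx hgood.1 hgood.2.1 hgood.2.2
      exact hxG (mem_iUnion.mpr ⟨n, hn⟩)
  have hlow : ∀ k, ENNReal.ofReal (1 / ((n : ℝ) + 1)) * volume (G n) ≤ ∑' j, F k j := by
    intro k
    haveI := hfinm k
    calc ENNReal.ofReal (1 / ((n : ℝ) + 1)) * volume (G n)
        = ∫⁻ _ in G n, ENNReal.ofReal (1 / ((n : ℝ) + 1)) := by
          rw [setLIntegral_const]
      _ ≤ ∫⁻ x in G n, g k x := by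
          apply setLIntegral_mono (Measure.measurable_rnDeriv _ _)
          intro x hx
          exact mem_iInter.mp hx k
      _ ≤ ∫⁻ x, g k x := setLIntegral_le_lintegral _ _
      _ ≤ ν k univ := Measure.lintegral_rnDeriv_le
      _ = ∑' j, F k j := hνuniv k
  have hlim := tsum_small hs ℓ hℓ hSt
  have hle := ge_of_tendsto' hlim hlow
  have hpos : 0 < ENNReal.ofReal (1 / ((n : ℝ) + 1)) * volume (G n) :=
    ENNReal.mul_pos (by
      rw [ENNReal.ofReal_ne_zero_iff]
      positivity) hn
  exact absurd hle (not_le.mpr hpos)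

/-- **Mass transference at the critical exponent.** -/
theorem full_of_rich (hm : 0 < m) {s : ℝ} (hs : 0 < s) (hsm : s ≤ m) (U : Set (Fin m → ℝ))
    (hfull : ∀ᵐ x ∂(volume : Measure (Fin m → ℝ)), Rich s U x) : Full s U := by
  intro L T hT
  have h := crit (ι := T) hm hs hsm U (fun i => (L.2 i:ℝ) / 2^L.1)
    (b := 1 / 2 ^ L.1) (by positivity) (by
      filter_upwards [hfull] with x hx _
      exact hx)
    (fun j i => (j.1.2 i:ℝ) / 2^j.1.1) (fun j => 1 / 2^j.1.1) (fun j => by positivity) (by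
      intro y hy hyU
      obtain ⟨p, hp1, hp2⟩ := hT y (by
        rw [D_eq]
        exact fun i => ⟨(hy i).1.le, (hy i).2⟩) hyU
      rw [D_eq] at hp2
      exact ⟨⟨p, hp1⟩, hp2⟩)
  refine h.trans (le_of_eq ?_)
  unfold W
  rw [← tsum_subtype]
  rfl

end Pool.Agent.KS6_51.HG
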