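import Pool.Agent.KS6_51.HG.H9

set_option autoImplicit false

/-!
If `τ < ω(A)` then the whole subspace `L_A` consists of `τ`-approximable points.
-/

namespace Pool.Agent.KS6_51.HG

open MeasureTheory Filter Topology Set
open scoped ENNReal
open Pool.Agent.H639R3.G Pool.Agent.Y762.GA
open Pool.Agent

variable {d m : ℕ}

theorem value_le_gen (A : Matrix (Fin (d + 1)) (Fin m) ℝ) (q : Fin m → ℤ) (x : Fin d → ℝ) :
    |((-round (ev A q 0) : ℤ) : ℝ) + ∑ i, (Y409.GA.zz A q i : ℝ) * point A x i| ≤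
      (1 + d * ‖x‖) * distIntVec (ev A q) := by
  have hx1 : ∀ i, |x i| ≤ ‖x‖ := fun i => norm_le_pi_norm x i
  rw [sum_point]
  have e1 : (fun j => Y409.GA.zz A q (Fin.natAdd d j)) = q := by
    funext j
    unfold Y409.GA.zz
    rw [Fin.append_right]
  have e2 : (fun i => Y409.GA.zz A q (Fin.castAdd m i)) =
      fun i : Fin d => -round (ev A q i.succ) := by
    funext j
    unfold Y409.GA.zz
    rw [Fin.append_left]
  rw [e1, e2]
  unfold aff acoef bvec
  have e3 : ((-round (ev A q 0) : ℤ) : ℝ) + (ev A q 0 + ∑ i : Fin d,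
      (((-round (ev A q i.succ) : ℤ) : ℝ) + ev A q i.succ) * x i) =
      (ev A q 0 - round (ev A q 0)) + ∑ i : Fin d,
        (ev A q i.succ - round (ev A q i.succ)) * x i := by
    push_cast
    have : ∀ i : Fin d, (-(round (ev A q i.succ) : ℝ) + ev A q i.succ) * x i =
        (ev A q i.succ - round (ev A q i.succ)) * x i := fun i => by ring
    simp only [this]
    ring
  rw [e3]
  have h1 := le_distIntVec (ev A q) 0
  have h2 : |∑ i : Fin d, (ev A q i.succ - round (ev A q i.succ)) * x i| ≤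
      d * ‖x‖ * distIntVec (ev A q) := by
    refine (Finset.abs_sum_le_sum_abs _ _).trans ?_
    calc ∑ i : Fin d, |(ev A q i.succ - round (ev A q i.succ)) * x i|
        ≤ ∑ _i : Fin d, distIntVec (ev A q) * ‖x‖ := by
          apply Finset.sum_le_sum
          intro i _
          rw [abs_mul]
          have h3 := le_distIntVec (ev A q) i.succ
          exact mul_le_mul h3 (hx1 i) (abs_nonneg _) (distIntVec_nonneg _)
      _ = _ := by
          rw [Finset.sum_const, Finset.card_univ, Fintype.card_fin, nsmul_eq_mul]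
          ring
  refine (abs_add_le _ _).trans ?_
  have e4 : (1 + (d : ℝ) * ‖x‖) * distIntVec (ev A q) =
      distIntVec (ev A q) + d * ‖x‖ * distIntVec (ev A q) := by
    ring
  rw [e4]
  exact add_le_add h1 h2

theorem all_of_lt (A : Matrix (Fin (d + 1)) (Fin m) ℝ) {τ : ℝ} (hτ0 : 0 ≤ τ)
    (hA : (τ : EReal) < exponent A) (x : Fin d → ℝ) : point A x ∈ W (pw τ) := by
  obtain ⟨a, ⟨ω, hω, rfl⟩, hlt⟩ := lt_sSup_iff.1 hA
  have hlt' : τ < ω := EReal.coe_lt_coe_iff.1 hlt
  have hinf : {q : Fin m → ℤ | distIntVec (ev A q) < (supNorm q : ℝ) ^ (-ω)}.Infinite := hω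
  set C : ℕ := ⌈CA A⌉₊ with hC
  have hC1 : 1 ≤ CA A := by
    unfold CA
    have : 0 ≤ ∑ i, ∑ j, |A i j| := Finset.sum_nonneg fun i _ => Finset.sum_nonneg fun j _ =>
      abs_nonneg _
    linarith
  have hC0 : (0 : ℝ) < C := by
    have : CA A ≤ C := Nat.le_ceil _
    linarith
  set M : ℝ := 1 + d * ‖x‖ with hM
  have hM0 : 0 < M := by positivity
  have hlim : Filter.Tendsto (fun k : ℕ => (k : ℝ) ^ (-(ω - τ))) Filter.atTop
      (nhds 0) := (tendsto_rpow_neg_atTop (by linarith)).comp tendsto_natCast_atTop_atTop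
  obtain ⟨N, hN⟩ := Filter.eventually_atTop.1 (hlim.eventually_lt_const
    (show 0 < (C : ℝ) ^ (-τ) / M by positivity))
  show {z : Fin (d + m) → ℤ | z ≠ 0 ∧
      distInt (∑ i, (z i : ℝ) * point A x i) < pw τ (supNorm z)}.Infinite
  apply Set.Infinite.of_image supNorm
  apply Set.infinite_of_forall_exists_gt
  intro a
  have hfin : {q : Fin m → ℤ | supNorm q ≤ max a N}.Finite := by
    apply (box m (max a N)).finite_toSet.subset
    intro q hq
    exact mem_box.2 (supNorm_le_iff.1 hq)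
  obtain ⟨q, hq1, hq2⟩ := (hinf.sdiff hfin).nonempty
  have hq2' : max a N < supNorm q := not_le.mp hq2
  have hqa : a < supNorm q := lt_of_le_of_lt (le_max_left _ _) hq2'
  have hqN : N ≤ supNorm q := (lt_of_le_of_lt (le_max_right _ _) hq2').le
  have hq0 : q ≠ 0 := by
    rintro rfl
    have : supNorm (0 : Fin m → ℤ) = 0 := by
      apply Nat.le_zero.1
      exact supNorm_le_iff.2 (by simp)
    omega
  have hzge := Y409.GA.supNorm_zz_ge A q
  have hzle := Y409.GA.supNorm_zz_le A hq0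
  have hz0 : Y409.GA.zz A q ≠ 0 := by
    intro h0
    rw [h0] at hzge
    have h3 : supNorm (0 : Fin (d + m) → ℤ) = 0 := by
      unfold supNorm
      simp
    omega
  refine ⟨supNorm (Y409.GA.zz A q), ⟨Y409.GA.zz A q, ⟨hz0, ?_⟩, rfl⟩, by omega⟩
  rw [distInt_lt_iff]
  refine ⟨-round (ev A q 0), ?_⟩
  refine lt_of_le_of_lt (value_le_gen A q x) ?_
  have hpos : (0 : ℝ) < supNorm q := by exact_mod_cast supNorm_pos hq0
  have hzpos : (0 : ℝ) < supNorm (Y409.GA.zz A q) := by exact_mod_cast supNorm_pos hz0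
  have h1 := hN (supNorm q) hqN
  have h2 : distIntVec (ev A q) < (supNorm q : ℝ) ^ (-ω) := hq1
  have h3 : (C : ℝ) ^ (-τ) * (supNorm q : ℝ) ^ (-τ) ≤ pw τ (supNorm (Y409.GA.zz A q)) := by
    unfold pw
    rw [← Real.mul_rpow hC0.le hpos.le]
    apply Real.rpow_le_rpow_of_nonpos hzpos _ (by linarith)
    exact_mod_cast hzle
  refine lt_of_lt_of_le ?_ h3
  rw [lt_div_iff₀ hM0] at h1
  have h4 : (supNorm q : ℝ) ^ (-ω) = (supNorm q : ℝ) ^ (-(ω - τ)) * (supNorm q : ℝ) ^ (-τ) := by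
    rw [← Real.rpow_add hpos]
    congr 1
    ring
  have h5 : 0 < (supNorm q : ℝ) ^ (-τ) := Real.rpow_pos_of_pos hpos _
  calc M * distIntVec (ev A q) < M * (supNorm q : ℝ) ^ (-ω) := by gcongr
    _ = (supNorm q : ℝ) ^ (-(ω - τ)) * M * (supNorm q : ℝ) ^ (-τ) := by
        rw [h4]
        ring
    _ < (C : ℝ) ^ (-τ) * (supNorm q : ℝ) ^ (-τ) := by gcongr

end Pool.Agent.KS6_51.HG
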