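import Pool.Agent.KS6_51.BW.M1
import Pool.Graph.R_seed8.H639R3.G.Vol

set_option autoImplicit false

/-!
The Hausdorff content of a piece of a slab.
-/

namespace Pool.Agent.KS6_51.HG

open MeasureTheory Filter Topology Set
open scoped ENNReal
open Pool.Agent.H639R3.G

variable {d : ℕ}

/-- A family of half-open cubes which covers a piece of a slab has a large `s`-dimensional sum. -/
theorem slab_content {ι : Type} [Countable ι] (hd : 0 < d) {s : ℝ} (hs1 : (d : ℝ) - 1 < s)
    (hs2 : s ≤ d) {a : ℝ} {b : Fin d → ℝ} {i : Fin d} {c : Fin d → ℝ} {r δ : ℝ}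
    (hbi : |b i| = ‖b‖) (hb : 0 < ‖b‖) (hr : 0 < r) (hδ : 0 < δ)
    (u : ι → Fin d → ℝ) (ℓ : ι → ℝ) (hℓ : ∀ j, 0 ≤ ℓ j)
    (hcov : ∀ y ∈ slabBox a b i c r δ, ∃ j, ∀ k, y k ∈ Ico (u j k) (u j k + ℓ j)) :
    ENNReal.ofReal ((2 * r) ^ (d - 1) * (2 * δ / ‖b‖) ^ (s - (d - 1))) ≤
      ∑' j, ENNReal.ofReal (ℓ j) ^ s := by
  have hbi0 : b i ≠ 0 := by
    intro h
    rw [h, abs_zero] at hbi
    linarith
  have hd1 : (1 : ℝ) ≤ d := by exact_mod_cast hd
  have hs0 : 0 < s := by linarith
  set w : ℝ := 2 * δ / ‖b‖ with hw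
  have hw0 : 0 < w := by positivity
  set η : ℝ := s - (d - 1) with hη
  have hη0 : 0 < η := by rw [hη]; linarith
  have hη1 : η ≤ 1 := by rw [hη]; linarith
  have hcast : ((d - 1 : ℕ) : ℝ) = d - 1 := by
    rw [Nat.cast_sub hd]
    simp
  -- one cube
  have hone : ∀ j, volume (slabBox a b i c r δ ∩ {y | ∀ k, y k ∈ Ico (u j k) (u j k + ℓ j)}) ≤
      ENNReal.ofReal (w ^ (1 - η)) * ENNReal.ofReal (ℓ j) ^ s := by
    intro j
    rcases (hℓ j).eq_or_lt with h0 | h0
    · have : {y : Fin d → ℝ | ∀ k, y k ∈ Ico (u j k) (u j k + ℓ j)} = ∅ := by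
        apply Set.eq_empty_of_forall_notMem
        intro y hy
        have := hy i
        rw [← h0, add_zero, Ico_self] at this
        exact this
      rw [this, inter_empty, measure_empty]
      exact zero_le
    · have h1 : volume (slabBox a b i c r δ ∩ {y | ∀ k, y k ∈ Ico (u j k) (u j k + ℓ j)}) ≤
          ENNReal.ofReal (ℓ j ^ d) := by
        refine (measure_mono inter_subset_right).trans ?_
        rw [BW.vol_Ico, ENNReal.ofReal_pow h0.le]
      have h2 : volume (slabBox a b i c r δ ∩ {y | ∀ k, y k ∈ Ico (u j k) (u j k + ℓ j)}) ≤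
          ENNReal.ofReal (ℓ j ^ (d - 1) * w) := by
        have hsub : slabBox a b i c r δ ∩ {y | ∀ k, y k ∈ Ico (u j k) (u j k + ℓ j)} ⊆
            slabBox a b i (fun k => u j k + ℓ j / 2) (ℓ j / 2) δ := by
          rintro y ⟨hy1, hy2⟩
          refine ⟨fun k _ => ?_, hy1.2⟩
          have := hy2 k
          rw [abs_le]
          constructor <;> linarith [this.1, this.2]
        refine (measure_mono hsub).trans ?_
        rw [volume_slabBox hbi0 (by positivity), hbi]
        apply ENNReal.ofReal_le_ofReal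
        apply le_of_eq
        rw [hw]
        have : 2 * (ℓ j / 2) = ℓ j := by ring
        rw [this]
        ring
      have h3 : volume (slabBox a b i c r δ ∩ {y | ∀ k, y k ∈ Ico (u j k) (u j k + ℓ j)}) ≤
          ENNReal.ofReal (ℓ j ^ (d - 1) * min (ℓ j) w) := by
        rw [mul_min_of_nonneg _ _ (by positivity)]
        rw [ENNReal.ofReal_min]
        refine le_min ?_ h2
        refine h1.trans (le_of_eq ?_)
        congr 1
        rw [← pow_succ]
        congr 1
        omega
      refine h3.trans ?_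
      rw [ENNReal.ofReal_rpow_of_pos h0, ← ENNReal.ofReal_mul (by positivity)]
      apply ENNReal.ofReal_le_ofReal
      have h4 : min (ℓ j) w ≤ ℓ j ^ η * w ^ (1 - η) := by
        have hm : 0 < min (ℓ j) w := lt_min h0 hw0
        calc min (ℓ j) w = min (ℓ j) w ^ η * min (ℓ j) w ^ (1 - η) := by
              rw [← Real.rpow_add hm, add_sub_cancel, Real.rpow_one]
          _ ≤ ℓ j ^ η * w ^ (1 - η) := by
              apply mul_le_mul
              · exact Real.rpow_le_rpow hm.le (min_le_left _ _) hη0.le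
              · exact Real.rpow_le_rpow hm.le (min_le_right _ _) (by linarith)
              · positivity
              · positivity
      calc ℓ j ^ (d - 1) * min (ℓ j) w ≤ ℓ j ^ (d - 1) * (ℓ j ^ η * w ^ (1 - η)) := by gcongr
        _ = w ^ (1 - η) * ℓ j ^ s := by
            have : ℓ j ^ s = ℓ j ^ (d - 1) * ℓ j ^ η := by
              rw [← Real.rpow_natCast (ℓ j) (d - 1), ← Real.rpow_add h0, hcast]
              congr 1
              rw [hη]
              ring
            rw [this]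
            ring
  -- sum
  have hvol : volume (slabBox a b i c r δ) ≤
      ENNReal.ofReal (w ^ (1 - η)) * ∑' j, ENNReal.ofReal (ℓ j) ^ s := by
    calc volume (slabBox a b i c r δ) ≤ volume (⋃ j, (slabBox a b i c r δ ∩
          {y | ∀ k, y k ∈ Ico (u j k) (u j k + ℓ j)})) := by
          apply measure_mono
          intro y hy
          obtain ⟨j, hj⟩ := hcov y hy
          exact mem_iUnion.mpr ⟨j, hy, hj⟩
      _ ≤ ∑' j, volume (slabBox a b i c r δ ∩ {y | ∀ k, y k ∈ Ico (u j k) (u j k + ℓ j)}) :=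
          measure_iUnion_le _
      _ ≤ ∑' j, ENNReal.ofReal (w ^ (1 - η)) * ENNReal.ofReal (ℓ j) ^ s :=
          ENNReal.tsum_le_tsum hone
      _ = _ := ENNReal.tsum_mul_left
  rw [volume_slabBox hbi0 hr.le, hbi] at hvol
  have hwη : 0 < w ^ (1 - η) := Real.rpow_pos_of_pos hw0 _
  have e1 : (2 * r) ^ (d - 1) * (2 * δ) / ‖b‖ = w ^ (1 - η) * ((2 * r) ^ (d - 1) * w ^ η) := by
    have : w ^ (1 - η) * w ^ η = w := by
      rw [← Real.rpow_add hw0, sub_add_cancel, Real.rpow_one]
    calc (2 * r) ^ (d - 1) * (2 * δ) / ‖b‖ = (2 * r) ^ (d - 1) * w := by rw [hw]; ring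
      _ = (2 * r) ^ (d - 1) * (w ^ (1 - η) * w ^ η) := by rw [this]
      _ = _ := by ring
  rw [e1, ENNReal.ofReal_mul hwη.le] at hvol
  have h0 : ENNReal.ofReal (w ^ (1 - η)) ≠ 0 := by
    rw [ENNReal.ofReal_ne_zero_iff]
    exact hwη
  exact (ENNReal.mul_le_mul_iff_right h0 ENNReal.ofReal_ne_top).mp hvol

end Pool.Agent.KS6_51.HG
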