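import Pool.Graph.R_seed8.Y762.GA.Main

set_option autoImplicit false

/-!
The divergence half of the theorem on affine subspaces with forms of large slope, along a given set
of dyadic levels (adaptation of the library files `Y762/GA/Prop_.lean` and `Y762/GA/Div.lean`).
-/

open MeasureTheory Set Metric
open Pool.Agent.H639R3.G Pool.Agent.Y762.GA
open Pool.Agent

namespace Pool.Agent.KS6_51.HG

variable {d m : ℕ}

theorem prop_ls (hd : 0 < d) (A : Matrix (Fin (d + 1)) (Fin m) ℝ) (κ : ℝ) (r0 : ℕ) (hκ : 0 < κ) :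
    ∃ η : ℝ, 0 < η ∧ ∀ ψ : ℕ → ℝ, Admissible ψ → ∀ (x0 : Fin d → ℝ) (ρ : ℝ), 0 < ρ →
      ∀ T : Set ℕ, (∀ t ∈ T, Nonempty (Lev A x0 ρ κ (d + 2 / κ) r0 t)) →
      ¬ Summable (fun t : ℕ => T.indicator
        (fun t : ℕ => min ((2 : ℝ) ^ (t * (d + m)) * ψ (2 ^ (t + r0))) 1) t) →
      ∃ S : Set (Fin d → ℝ), MeasurableSet S ∧ S ⊆ closedBall x0 (2 * ρ) ∧
        (∀ x ∈ S, ∃ᶠ t in Filter.atTop, t ∈ T ∧ ∃ (z : Fin (d + m) → ℤ) (p : ℤ), z ≠ 0 ∧
          (∀ i, |z i| ≤ 2 ^ (t + r0)) ∧
          κ * 2 ^ t < ‖bvec A (fun i => z (Fin.castAdd m i)) (fun j => z (Fin.natAdd d j))‖ ∧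
          |aff (p + acoef A (fun j => z (Fin.natAdd d j)))
            (bvec A (fun i => z (Fin.castAdd m i)) (fun j => z (Fin.natAdd d j))) x| <
              ψ (2 ^ (t + r0))) ∧
        η * (2 * ρ) ^ d ≤ volume.real S := by
  classical
  set C3 : ℝ := d + 2 / κ with hC3
  have hd1 : (1 : ℝ) ≤ d := by exact_mod_cast hd
  have hC31 : 1 ≤ C3 := by
    have : 0 < 2 / κ := by positivity
    rw [hC3]; linarith
  have hC3pos : 0 < C3 := by linarith
  have hCA := CA_pos A
  set C4 := (1 + 2 * C3) ^ (d - 1) * (1 / κ + 2 * d * C3) with hC4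
  have hC41 : 1 ≤ C4 := by
    have h1 : 1 ≤ (1 + 2 * C3) ^ (d - 1) := one_le_pow₀ (by linarith)
    have h2 : 1 ≤ 1 / κ + 2 * d * C3 := by
      have : 0 < 1 / κ := by positivity
      nlinarith
    calc (1 : ℝ) = 1 * 1 := (one_mul 1).symm
      _ ≤ C4 := by rw [hC4]; gcongr
  set cc := 1 / (2 * (5 * C3) ^ d * (CA A * 2 ^ r0)) with hcc
  set CC := 2 ^ d * C4 / κ with hCC
  have hccpos : 0 < cc := by positivity
  have hCCpos : 0 < CC := by positivity
  refine ⟨cc ^ 2 / (5 * CC), by positivity, ?_⟩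
  intro ψ hψ x0 ρ hρ T hT hTdiv
  set φ : ℕ → ℝ := fun t => min (ψ (2 ^ (t + r0))) (1 / 2 ^ (t * (d + m))) with hφdef
  have hφpos : ∀ t, 0 < φ t := fun t => lt_min (hψ.1 _ Nat.one_le_two_pow) (by positivity)
  have hφle : ∀ t, φ t ≤ 1 / 2 ^ (t * (d + m)) := fun t => min_le_right _ _
  have hφψ : ∀ t, φ t ≤ ψ (2 ^ (t + r0)) := fun t => min_le_left _ _
  have hφanti : ∀ s t, s ≤ t → φ t ≤ φ s := by
    intro s t hst
    apply min_le_min
    · exact hψ.2 _ _ Nat.one_le_two_pow (Nat.pow_le_pow_right (by norm_num) (by omega))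
    · apply one_div_le_one_div_of_le (by positivity)
      apply pow_le_pow_right₀ one_le_two
      exact Nat.mul_le_mul_right _ (by omega)
  set w0 : ℕ → ℝ := fun t => 2 ^ (t * (d + m)) * φ t with hw0def
  have hw0nn : ∀ t, 0 ≤ w0 t := fun t => by
    have := hφpos t
    simp only [hw0def]; positivity
  have hw0 : ∀ t, w0 t = min ((2 : ℝ) ^ (t * (d + m)) * ψ (2 ^ (t + r0))) 1 := by
    intro t
    simp only [hw0def, hφdef]
    rw [mul_min_of_nonneg _ _ (by positivity)]
    congr 1
    field_simp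
  set w : ℕ → ℝ := fun t => T.indicator w0 t with hwdef
  have hwin : ∀ t, t ∈ T → w t = w0 t := fun t h => indicator_of_mem h _
  have hwout : ∀ t, t ∉ T → w t = 0 := fun t h => indicator_of_notMem h _
  have hwnn : ∀ t, 0 ≤ w t := fun t => by
    by_cases h : t ∈ T
    · rw [hwin t h]; exact hw0nn t
    · rw [hwout t h]
  have hwdiv : ¬ Summable w := by
    intro hs
    apply hTdiv
    refine hs.congr fun t => ?_
    by_cases h : t ∈ T
    · rw [hwin t h, indicator_of_mem h, hw0]
    · rw [hwout t h, indicator_of_notMem h]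
  set E : ℕ → Set (Fin d → ℝ) := fun t => if h : t ∈ T then (hT t h).some.E (φ t) else ∅ with hE
  have hEin : ∀ t (h : t ∈ T), E t = (hT t h).some.E (φ t) := fun t h => dif_pos h
  have hEout : ∀ t, t ∉ T → E t = ∅ := fun t h => dif_neg h
  have hEsub : ∀ t, E t ⊆ closedBall x0 (2 * ρ) := fun t => by
    by_cases h : t ∈ T
    · rw [hEin t h]
      exact (hT t h).some.E_subset hd hκ hC3 (hφpos t).le (hφle t)
    · rw [hEout t h]; exact empty_subset _
  have hEm : ∀ t, MeasurableSet (E t) := fun t => by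
    by_cases h : t ∈ T
    · rw [hEin t h]; exact (hT t h).some.measurableSet_E _
    · rw [hEout t h]; exact MeasurableSet.empty
  have hfinball : volume (closedBall x0 (2 * ρ)) ≠ ⊤ := by
    rw [Real.volume_pi_closedBall _ (by positivity)]; exact ENNReal.ofReal_ne_top
  have hmain := measure_frequently_ge (volume : Measure (Fin d → ℝ)) E hEm
    (closedBall x0 (2 * ρ)) hfinball hEsub w hwnn hwdiv cc CC ((2 * ρ) ^ d) hccpos hCCpos
    (by positivity)
    (fun t => by
      by_cases h : t ∈ T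
      · rw [hwin t h, hEin t h]
        exact (hT t h).some.E_ge hd hκ hC3 (hφpos t).le (hφle t)
      · rw [hwout t h, mul_zero]; exact measureReal_nonneg)
    (fun t => by
      by_cases h : t ∈ T
      · rw [hwin t h, hEin t h]
        refine ((hT t h).some.E_le hd hκ hC3 (hφpos t).le (hφle t)).trans ?_
        have h1 : 2 ^ d / κ ≤ CC := by
          rw [hCC]
          apply div_le_div_of_nonneg_right _ hκ.le
          nlinarith [show (0 : ℝ) < 2 ^ d by positivity]
        have := hw0nn t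
        simp only [hw0def] at this ⊢
        gcongr
      · rw [hwout t h, hEout t h, mul_zero, measureReal_empty])
    (fun s t hst => by
      by_cases hs : s ∈ T
      · by_cases ht : t ∈ T
        · rw [hwin t ht, hwin s hs, hEin t ht, hEin s hs]
          exact Lev.overlap hd hst (hT s hs).some (hT t ht).some hκ hC3
            (hφpos s).le (hφpos t).le (hφanti s t hst.le) (hφle t) hρ
        · rw [hEout t ht, inter_empty, measureReal_empty]
          have h1 := hwnn s
          have h2 := hwnn t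
          positivity
      · rw [hEout s hs, empty_inter, measureReal_empty]
        have h1 := hwnn s
        have h2 := hwnn t
        positivity)
  refine ⟨{x | ∃ᶠ t in Filter.atTop, x ∈ E t}, ?_, ?_, ?_, hmain⟩
  · have : {x | ∃ᶠ t in Filter.atTop, x ∈ E t} = ⋂ N, ⋃ t, ⋃ (_ : N ≤ t), E t := by
      ext x
      simp only [mem_ofPred_eq, Filter.frequently_atTop, mem_iInter, mem_iUnion, exists_prop]
    rw [this]
    exact MeasurableSet.iInter fun N => MeasurableSet.iUnion fun t =>
      MeasurableSet.iUnion fun _ => hEm t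
  · intro x hx
    obtain ⟨t, ht⟩ := Filter.Frequently.exists hx
    exact hEsub t ht
  · intro x hx
    have hx' : ∃ᶠ t in Filter.atTop, x ∈ E t := hx
    refine hx'.mono fun t ht => ?_
    have htT : t ∈ T := by
      by_contra hcon
      rw [hEout t hcon] at ht
      exact ht
    rw [hEin t htT] at ht
    simp only [Lev.E, mem_iUnion, exists_prop] at ht
    obtain ⟨y, hy, hxy⟩ := ht
    obtain ⟨z, p, hz, hzb, ha, hb⟩ := (hT t htT).some.hab y hy
    have h1 : |aff ((hT t htT).some.a y) ((hT t htT).some.b y) x| < φ t := hxy.2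
    have h2 : κ * 2 ^ t < ‖(hT t htT).some.b y‖ := (hT t htT).some.hblo y hy
    rw [ha, hb] at h1
    rw [hb] at h2
    exact ⟨htT, z, p, hz, hzb, h2, h1.trans_le (hφψ t)⟩

theorem not_summable_ls (ψ : ℕ → ℝ) (hψ : Admissible ψ) (r : ℕ) (Ts : Set ℕ)
    (hdiv : ¬ Summable (fun u : ℕ => Ts.indicator
      (fun u : ℕ => min ((2 : ℝ) ^ (u * (d + m)) * ψ (2 ^ u)) 1) u)) :
    ¬ Summable (fun t : ℕ => {t : ℕ | t + r ∈ Ts}.indicator
      (fun t => min ((2 : ℝ) ^ (t * (d + m)) * ψ (2 ^ (t + r))) 1) t) := by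
  intro hs
  apply hdiv
  rw [← summable_nat_add_iff r]
  have hpos : ∀ t, 0 < ψ (2 ^ t) := fun t => hψ.1 _ Nat.one_le_two_pow
  refine Summable.of_nonneg_of_le (fun t => indicator_nonneg (fun u _ => ?_) _) (fun t => ?_)
    (hs.mul_left ((2 : ℝ) ^ (r * (d + m))))
  · have := hpos u
    exact le_min (by positivity) zero_le_one
  · by_cases h : t + r ∈ Ts
    · rw [indicator_of_mem h, indicator_of_mem (show t ∈ {t : ℕ | t + r ∈ Ts} from h)]
      have h1 : (1 : ℝ) ≤ 2 ^ (r * (d + m)) := one_le_pow₀ (by norm_num)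
      rw [mul_min_of_nonneg _ _ (by positivity)]
      apply min_le_min
      · apply le_of_eq
        rw [add_mul, pow_add]
        ring
      · linarith
    · rw [indicator_of_notMem h, indicator_of_notMem (show t ∉ {t : ℕ | t + r ∈ Ts} from h),
        mul_zero]

/-- at `x` there are, at infinitely many levels `u ∈ Ts`, forms of norm at most `2 ^ u`, of slope
comparable to `2 ^ u` and with a value less than `ψ (2 ^ u)` -/
def LS (A : Matrix (Fin (d + 1)) (Fin m) ℝ) (ψ : ℕ → ℝ) (Ts : Set ℕ) (x : Fin d → ℝ) : Prop :=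
  ∃ κ : ℝ, 0 < κ ∧ ∃ᶠ u in Filter.atTop, u ∈ Ts ∧ ∃ (z : Fin (d + m) → ℤ) (p : ℤ), z ≠ 0 ∧
    (∀ i, |z i| ≤ 2 ^ u) ∧
    κ * 2 ^ u < ‖bvec A (fun i => z (Fin.castAdd m i)) (fun j => z (Fin.natAdd d j))‖ ∧
    |aff (p + acoef A (fun j => z (Fin.natAdd d j)))
      (bvec A (fun i => z (Fin.castAdd m i)) (fun j => z (Fin.natAdd d j))) x| < ψ (2 ^ u)

theorem ls_of {A : Matrix (Fin (d + 1)) (Fin m) ℝ} {ψ : ℕ → ℝ} {Ts T : Set ℕ} {x : Fin d → ℝ}
    {κ : ℝ} (r : ℕ) (hκ : 0 < κ)
    (h : ∃ᶠ t in Filter.atTop, t ∈ T ∧ ∃ (z : Fin (d + m) → ℤ) (p : ℤ), z ≠ 0 ∧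
      (∀ i, |z i| ≤ 2 ^ (t + r)) ∧
      κ * 2 ^ t < ‖bvec A (fun i => z (Fin.castAdd m i)) (fun j => z (Fin.natAdd d j))‖ ∧
      |aff (p + acoef A (fun j => z (Fin.natAdd d j)))
        (bvec A (fun i => z (Fin.castAdd m i)) (fun j => z (Fin.natAdd d j))) x| <
          ψ (2 ^ (t + r))) (hT : ∀ t ∈ T, t + r ∈ Ts) : LS A ψ Ts x := by
  refine ⟨κ / 2 ^ r, by positivity, ?_⟩
  have h1 := (Filter.tendsto_add_atTop_nat r).frequently (p := fun u => u ∈ Ts ∧
    ∃ (z : Fin (d + m) → ℤ) (p : ℤ), z ≠ 0 ∧ (∀ i, |z i| ≤ 2 ^ u) ∧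
    κ / 2 ^ r * 2 ^ u < ‖bvec A (fun i => z (Fin.castAdd m i)) (fun j => z (Fin.natAdd d j))‖ ∧
    |aff (p + acoef A (fun j => z (Fin.natAdd d j)))
      (bvec A (fun i => z (Fin.castAdd m i)) (fun j => z (Fin.natAdd d j))) x| < ψ (2 ^ u))
  refine h1 (h.mono ?_)
  rintro t ⟨ht, z, p, h1, h2, h3, h4⟩
  refine ⟨hT t ht, z, p, h1, h2, ?_, h4⟩
  refine lt_of_eq_of_lt ?_ h3
  rw [pow_add]
  field_simp

theorem div_ls (hd : 0 < d) (A : Matrix (Fin (d + 1)) (Fin m) ℝ) (c : ℝ)
    (hA : Crit A c) (ψ : ℕ → ℝ) (hψ : Admissible ψ) (Ts : Set ℕ)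
    (hdiv : ¬ Summable (fun u : ℕ => Ts.indicator
      (fun u : ℕ => min ((2 : ℝ) ^ (u * (d + m)) * ψ (2 ^ u)) 1) u)) :
    ∀ᵐ x ∂(volume : Measure (Fin d → ℝ)), LS A ψ Ts x := by
  classical
  have hUB : S_UB := Y371.GA.t_UB t_BAD
  have hPIG : S_PIG := Y182.GA.t_PIG
  have hLEV : S_LEV := t_LEV
  have hMAX : S_MAX := Y371.GA.t_MAX
  have hFAT : S_FAT := Y371.GA.t_FAT
  rw [ae_iff]
  set S : Set (Fin d → ℝ) := {x | ¬ LS A ψ Ts x} with hS
  have key : ∀ (R : ℕ) (σ : ℝ), 0 < σ →
      volume (S ∩ closedBall (0 : Fin d → ℝ) R) ≤ ENNReal.ofReal σ := by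
    intro R σ hσ
    obtain ⟨k, t0, hU⟩ := hUB d m hd A c hA 0 (R + 1) (σ / (2 * 5 ^ d)) (by positivity)
      (by positivity)
    obtain ⟨r, t1, hP⟩ := hPIG d m hd A k
    set κ : ℝ := 1 / 2 ^ (k + 1) with hκ
    have hκ0 : 0 < κ := by positivity
    obtain ⟨η, hη, hη'⟩ := prop_ls hd A κ r hκ0
    set V : ℕ → Set (Fin d → ℝ) := fun t => U A k t ∩ closedBall 0 (R + 1) with hV
    set M0 : ℕ → Set (Fin d → ℝ) := fun t => {x | ∃ ρ : ℝ, 0 < ρ ∧ ρ ≤ 1 ∧
      volume (closedBall x ρ) < 2 * volume (V t ∩ closedBall x ρ)} with hM0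
    set M : ℕ → Set (Fin d → ℝ) := fun t => toMeasurable volume (M0 t) with hM
    have hMm : ∀ t, t0 ≤ t → volume (M t) ≤ ENNReal.ofReal σ := by
      intro t ht
      have h1 : volume (V t) ≤ ENNReal.ofReal (σ / (2 * 5 ^ d)) := hU t ht
      have h2 : volume (V t) ≠ ⊤ := ne_top_of_le_ne_top ENNReal.ofReal_ne_top h1
      calc volume (M t) = volume (M0 t) := measure_toMeasurable _
        _ ≤ 2 * 5 ^ d * volume (V t) := hMAX d (V t) hd h2
        _ ≤ 2 * 5 ^ d * ENNReal.ofReal (σ / (2 * 5 ^ d)) := by gcongr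
        _ = ENNReal.ofReal σ := by
          have h3 : (2 * 5 ^ d : ENNReal) = ENNReal.ofReal (2 * 5 ^ d) := by
            rw [ENNReal.ofReal_mul (by norm_num), ENNReal.ofReal_pow (by norm_num)]
            simp
          rw [h3, ← ENNReal.ofReal_mul (by positivity)]
          congr 1
          field_simp
    set ω' : ℕ → ℝ := fun t => min ((2 : ℝ) ^ (t * (d + m)) * ψ (2 ^ (t + r))) 1 with hω'
    set ω : ℕ → ℝ := fun t => {t : ℕ | t + r ∈ Ts}.indicator ω' t with hω
    have hω'0 : ∀ t, 0 ≤ ω' t := by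
      intro t
      have := hψ.1 (2 ^ (t + r)) Nat.one_le_two_pow
      exact le_min (by positivity) zero_le_one
    have hω0 : ∀ t, 0 ≤ ω t := fun t => indicator_nonneg (fun t _ => hω'0 t) t
    have hωdiv : ¬ Summable ω := not_summable_ls (d := d) (m := m) ψ hψ r Ts hdiv
    set N : Set (Fin d → ℝ) := {x | x ∈ closedBall (0 : Fin d → ℝ) R ∧
      Summable (fun t : ℕ => {t | x ∉ M t}.indicator ω t)} with hN
    have hNle : volume N ≤ ENNReal.ofReal σ :=
      hFAT (Fin d → ℝ) volume (closedBall 0 R) measurableSet_closedBall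
        (by rw [Real.volume_pi_closedBall _ (by positivity)]; exact ENNReal.ofReal_ne_top)
        M (fun t => measurableSet_toMeasurable _ _) ω hω0 hωdiv σ t0 hσ.le hMm
    set N' := toMeasurable volume N with hN'
    set Gd : Set (Fin d → ℝ) := closedBall 0 R \ N' with hGd
    have hGdm : MeasurableSet Gd := measurableSet_closedBall.diff (measurableSet_toMeasurable _ _)
    set S' : Set (Fin d → ℝ) := S ∩ Gd with hS'
    -- the ratio at good points
    have hball : ∀ x0 ∈ Gd, ∀ ρ : ℝ, 0 < ρ → ρ ≤ 1 →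
        volume (S' ∩ closedBall x0 ρ) / volume (closedBall x0 ρ)
          ≤ ENNReal.ofReal (1 - η / 2 ^ d) := by
      intro x0 hx0 ρ' hρ' hρ'1
      set ρ : ℝ := ρ' / 2 with hρdef
      have hρ : 0 < ρ := by positivity
      have hρ1 : ρ ≤ 1 := by rw [hρdef]; linarith
      have hx0R : x0 ∈ closedBall (0 : Fin d → ℝ) R := hx0.1
      have hx0N : x0 ∉ N := fun h => hx0.2 (subset_toMeasurable _ _ h)
      have hdivx : ¬ Summable (fun t : ℕ => {t | x0 ∉ M t}.indicator ω t) := fun h =>
        hx0N ⟨hx0R, h⟩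
      have hC31 : 1 ≤ (d : ℝ) + 2 / κ := by
        have h1 : (1 : ℝ) ≤ d := by exact_mod_cast hd
        have h2 : 0 < 2 / κ := by positivity
        linarith
      obtain ⟨t2, ht2⟩ := Filter.eventually_atTop.1
        ((tendsto_sc hd m ((d : ℝ) + 2 / κ)).eventually_le_const hρ)
      set T : Set ℕ := {t | x0 ∉ M t ∧ t1 ≤ t ∧ t2 ≤ t ∧ t + r ∈ Ts} with hT
      have hTL : ∀ t ∈ T, Nonempty (Lev A x0 ρ κ (d + 2 / κ) r t) := by
        rintro t ⟨ht, ht1, ht2', -⟩
        have hsub : closedBall x0 ρ ⊆ closedBall (0 : Fin d → ℝ) (R + 1) := by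
          apply closedBall_subset_closedBall'
          have := mem_closedBall.1 hx0R
          linarith
        have hhalf : 2 * volume (V t ∩ closedBall x0 ρ) ≤ volume (closedBall x0 ρ) := by
          by_contra hcon
          push Not at hcon
          exact ht (subset_toMeasurable _ _ ⟨ρ, hρ, hρ1, hcon⟩)
        have hfin : volume (closedBall x0 ρ) ≠ ⊤ := by
          rw [Real.volume_pi_closedBall _ (by positivity)]; exact ENNReal.ofReal_ne_top
        refine hLEV d m hd A x0 ρ κ (d + 2 / κ) r t hρ hκ0 hC31 (ht2 t ht2')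
          (closedBall x0 ρ \ U A k t) sdiff_subset ?_ ?_
        · have h1 : volume (closedBall x0 ρ) ≤ volume (V t ∩ closedBall x0 ρ)
              + volume (closedBall x0 ρ \ U A k t) := by
            refine le_trans (measure_mono ?_) (measure_union_le _ _)
            intro y hy
            by_cases hyU : y ∈ U A k t
            · exact Or.inl ⟨⟨hyU, hsub hy⟩, hy⟩
            · exact Or.inr ⟨hy, hyU⟩
          have h2 : volume (closedBall x0 ρ) + volume (closedBall x0 ρ)
              ≤ volume (closedBall x0 ρ) + 2 * volume (closedBall x0 ρ \ U A k t) := by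
            calc volume (closedBall x0 ρ) + volume (closedBall x0 ρ)
                = 2 * volume (closedBall x0 ρ) := (two_mul _).symm
              _ ≤ 2 * (volume (V t ∩ closedBall x0 ρ)
                + volume (closedBall x0 ρ \ U A k t)) := by gcongr
              _ = 2 * volume (V t ∩ closedBall x0 ρ)
                + 2 * volume (closedBall x0 ρ \ U A k t) := mul_add _ _ _
              _ ≤ _ := by gcongr
          exact (ENNReal.add_le_add_iff_left hfin).1 h2
        · rintro x ⟨_, hx⟩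
          exact hP t ht1 x hx
      have hTdiv : ¬ Summable (fun t : ℕ => T.indicator ω' t) := by
        intro hs
        apply hdivx
        rw [← summable_nat_add_iff (max t1 t2)] at hs ⊢
        refine hs.congr fun t => ?_
        by_cases h : x0 ∈ M (t + max t1 t2)
        · rw [indicator_of_notMem, indicator_of_notMem]
          · exact fun h' => h' h
          · exact fun h' => h'.1 h
        · rw [indicator_of_mem (s := {t | x0 ∉ M t}) (show t + max t1 t2 ∈ {t | x0 ∉ M t} from h)]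
          by_cases h2 : t + max t1 t2 + r ∈ Ts
          · rw [indicator_of_mem, hω]
            · show _ = {t : ℕ | t + r ∈ Ts}.indicator ω' (t + max t1 t2)
              rw [indicator_of_mem (show t + max t1 t2 ∈ {t : ℕ | t + r ∈ Ts} from h2)]
            · exact ⟨h, by omega, by omega, h2⟩
          · rw [indicator_of_notMem, hω]
            · show _ = {t : ℕ | t + r ∈ Ts}.indicator ω' (t + max t1 t2)
              rw [indicator_of_notMem (show t + max t1 t2 ∉ {t : ℕ | t + r ∈ Ts} from h2)]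
            · exact fun h' => h2 h'.2.2.2
      obtain ⟨G, hGm, hGsub, hGW, hGvol⟩ := hη' ψ hψ x0 ρ hρ T hTL hTdiv
      have e1 : 2 * ρ = ρ' := by rw [hρdef]; ring
      rw [e1] at hGsub hGvol
      have hfinball : volume (closedBall x0 ρ') ≠ ⊤ := by
        rw [Real.volume_pi_closedBall _ (by positivity)]; exact ENNReal.ofReal_ne_top
      have hsub : S' ∩ closedBall x0 ρ' ⊆ closedBall x0 ρ' \ G := by
        rintro x ⟨hx1, hx2⟩
        exact ⟨hx2, fun hxG => hx1.1 (ls_of r hκ0 (hGW x hxG) fun t ht => ht.2.2.2)⟩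
      have hfinG : volume G ≠ ⊤ := ne_top_of_le_ne_top hfinball (measure_mono hGsub)
      have h1 : volume (S' ∩ closedBall x0 ρ') ≤ ENNReal.ofReal ((2 * ρ') ^ d - η * ρ' ^ d) := by
        refine (measure_mono hsub).trans ?_
        rw [measure_sdiff hGsub hGm.nullMeasurableSet hfinG, Real.volume_pi_closedBall _ hρ'.le,
          Fintype.card_fin, ENNReal.ofReal_sub _ (by positivity)]
        apply tsub_le_tsub_left
        exact ENNReal.ofReal_le_of_le_toReal hGvol
      have h2 : volume (closedBall x0 ρ') = ENNReal.ofReal ((2 * ρ') ^ d) := by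
        rw [Real.volume_pi_closedBall _ hρ'.le, Fintype.card_fin]
      rw [h2]
      apply ENNReal.div_le_of_le_mul
      refine h1.trans ?_
      rw [← ENNReal.ofReal_mul' (by positivity)]
      apply ENNReal.ofReal_le_ofReal
      rw [sub_mul, one_mul, mul_pow]
      apply le_of_eq
      field_simp
    have hS'0 : volume S' = 0 := by
      have hlim := Besicovitch.ae_tendsto_measure_inter_div (volume : Measure (Fin d → ℝ)) S'
      have hmem : ∀ᵐ x ∂(volume.restrict S'), x ∈ Gd :=
        ae_restrict_of_ae_restrict_of_subset inter_subset_right (ae_restrict_mem hGdm)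
      have hfalse : ∀ᵐ x ∂(volume.restrict S'), False := by
        filter_upwards [hlim, hmem] with x hx hxG
        have h1 : ∀ᶠ r : ℝ in nhdsWithin 0 (Ioi 0),
            volume (S' ∩ closedBall x r) / volume (closedBall x r)
              ≤ ENNReal.ofReal (1 - η / 2 ^ d) := by
          filter_upwards [self_mem_nhdsWithin,
            mem_nhdsWithin_of_mem_nhds (Iio_mem_nhds (zero_lt_one))] with r hr hr1
          exact hball x hxG r hr (le_of_lt hr1)
        have h2 := le_of_tendsto hx h1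
        have h3 : ENNReal.ofReal (1 - η / 2 ^ d) < 1 := by
          rw [ENNReal.ofReal_lt_one]
          have : 0 < η / 2 ^ d := by positivity
          linarith
        exact absurd h3 (not_lt.2 h2)
      have h0 : volume.restrict S' = 0 := by
        rw [Filter.eventually_false_iff_eq_bot, ae_eq_bot] at hfalse
        exact hfalse
      exact Measure.restrict_eq_zero.1 h0
    calc volume (S ∩ closedBall (0 : Fin d → ℝ) R) ≤ volume (S' ∪ N') := by
          apply measure_mono
          rintro x ⟨hx1, hx2⟩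
          by_cases h : x ∈ N'
          · exact Or.inr h
          · exact Or.inl ⟨hx1, hx2, h⟩
      _ ≤ volume S' + volume N' := measure_union_le _ _
      _ ≤ ENNReal.ofReal σ := by
          rw [hS'0, zero_add, measure_toMeasurable]; exact hNle
  have hzero : ∀ R : ℕ, volume (S ∩ closedBall (0 : Fin d → ℝ) R) = 0 := by
    intro R
    by_contra hne
    have hfin : volume (S ∩ closedBall (0 : Fin d → ℝ) R) ≠ ⊤ :=
      ne_top_of_le_ne_top ENNReal.ofReal_ne_top (key R 1 one_pos)
    set v := (volume (S ∩ closedBall (0 : Fin d → ℝ) R)).toReal with hv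
    have hv0 : 0 < v := ENNReal.toReal_pos hne hfin
    have h1 := key R (v / 2) (by positivity)
    have h2 : volume (S ∩ closedBall (0 : Fin d → ℝ) R) = ENNReal.ofReal v :=
      (ENNReal.ofReal_toReal hfin).symm
    rw [h2, ENNReal.ofReal_le_ofReal_iff (by positivity)] at h1
    linarith
  have hcov : S ⊆ ⋃ R : ℕ, S ∩ closedBall (0 : Fin d → ℝ) R := by
    intro x hx
    obtain ⟨R, hR⟩ := exists_nat_ge ‖x‖
    refine mem_iUnion.2 ⟨R, hx, ?_⟩
    rw [mem_closedBall, dist_zero_right]; exact hR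
  exact measure_mono_null hcov (measure_iUnion_null hzero)


end Pool.Agent.KS6_51.HG
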