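import Pool.Agent.KS6_51.HG.H1
import Pool.Agent.KS6_51.HG.H2
import Pool.Agent.KS6_51.HG.H3

set_option autoImplicit false

/-!
The divergence half for Hausdorff measures, part 1: full content of the open sets.
-/

namespace Pool.Agent.KS6_51.HG

open MeasureTheory Filter Topology Set
open scoped ENNReal
open Pool.Agent.H639R3.G Pool.Agent.Y762.GA

variable {d m : ℕ}

/-- the levels at which a sequence coincides with its least non-increasing majorant -/
theorem exists_levels {n : ℕ} (hn : 1 ≤ n) (w : ℕ → ℝ) (hw0 : ∀ u, 0 < w u)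
    (hw1 : ∀ u, w u ≤ 1 / 2 ^ (u * n)) (hdiv : ¬ Summable (fun u : ℕ => (2 : ℝ) ^ (u * n) * w u)) :
    ∃ (Ψ : ℕ → ℝ) (Ts : Set ℕ), Admissible Ψ ∧ (∀ u ∈ Ts, Ψ (2 ^ u) = w u) ∧
      ¬ Summable (fun u : ℕ => Ts.indicator
        (fun u : ℕ => min ((2 : ℝ) ^ (u * n) * Ψ (2 ^ u)) 1) u) := by
  classical
  set V : ℕ → ℝ := fun u => ⨆ j : ℕ, w (u + j) with hV
  have hle1 : ∀ u j : ℕ, w (u + j) ≤ 1 / 2 ^ (u * n) := by
    intro u j
    refine (hw1 _).trans ?_
    apply one_div_le_one_div_of_le (by positivity)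
    apply pow_le_pow_right₀ one_le_two
    exact Nat.mul_le_mul_right _ (by omega)
  have hbdd : ∀ u, BddAbove (range fun j : ℕ => w (u + j)) := by
    intro u
    refine ⟨1 / 2 ^ (u * n), ?_⟩
    rintro _ ⟨j, rfl⟩
    exact hle1 u j
  have hwV : ∀ u, w u ≤ V u := fun u => le_ciSup (hbdd u) 0
  have hV0 : ∀ u, 0 < V u := fun u => (hw0 u).trans_le (hwV u)
  have hV1 : ∀ u, V u ≤ 1 / 2 ^ (u * n) := fun u => ciSup_le (hle1 u)
  have hVs : ∀ u, V (u + 1) ≤ V u := by
    intro u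
    apply ciSup_le
    intro j
    have := le_ciSup (hbdd u) (j + 1)
    refine le_trans (le_of_eq ?_) this
    congr 1
    ring
  have hVanti : Antitone V := antitone_nat_of_succ_le hVs
  have hVmax : ∀ u, V u ≤ max (w u) (V (u + 1)) := by
    intro u
    apply ciSup_le
    intro j
    rcases Nat.eq_zero_or_pos j with rfl | hj
    · exact le_max_left _ _
    · obtain ⟨k, rfl⟩ : ∃ k, j = k + 1 := ⟨j - 1, by omega⟩
      refine le_trans ?_ (le_max_right _ _)
      have := le_ciSup (hbdd (u + 1)) k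
      refine le_trans (le_of_eq ?_) this
      congr 1
      ring
  set Ts : Set ℕ := {u | V (u + 1) ≤ w u} with hTs
  have hVin : ∀ u ∈ Ts, V u = w u := by
    intro u hu
    apply le_antisymm _ (hwV u)
    refine (hVmax u).trans ?_
    exact max_le le_rfl hu
  have hVout : ∀ u, u ∉ Ts → V u = V (u + 1) := by
    intro u hu
    apply le_antisymm _ (hVs u)
    refine (hVmax u).trans ?_
    exact max_le (not_le.mp hu).le le_rfl
  have hmin : ∀ u : ℕ, min ((2 : ℝ) ^ (u * n) * V u) 1 = 2 ^ (u * n) * V u := by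
    intro u
    apply min_eq_left
    have := hV1 u
    rw [le_div_iff₀ (by positivity)] at this
    linarith
  refine ⟨fun k => V (Nat.log 2 k), Ts, ⟨fun k _ => hV0 _, fun j k _ hjk =>
    hVanti (Nat.log_mono_right hjk)⟩, fun u hu => ?_, ?_⟩
  · show V (Nat.log 2 (2 ^ u)) = w u
    rw [Nat.log_pow (by norm_num)]
    exact hVin u hu
  · intro hs
    have hlog : ∀ u : ℕ, Nat.log 2 (2 ^ u) = u := fun u => Nat.log_pow (by norm_num) u
    simp only [hlog, hmin] at hs
    apply hdiv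
    set b : ℕ → ℝ := fun u => (2 : ℝ) ^ (u * n) * V u with hb
    have hb0 : ∀ u, 0 ≤ b u := fun u => by
      have := hV0 u
      simp only [hb]
      positivity
    have hb1 : ∀ u, b u ≤ 1 := fun u => by
      have := hV1 u
      rw [le_div_iff₀ (by positivity)] at this
      simp only [hb]
      linarith
    set t : ℕ → ℝ := fun u => Ts.indicator b u with ht
    have ht0 : ∀ u, 0 ≤ t u := fun u => indicator_nonneg (fun u _ => hb0 u) u
    have hrec : ∀ u, b u ≤ t u + 1 / 2 * b (u + 1) := by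
      intro u
      by_cases hu : u ∈ Ts
      · simp only [ht]
        rw [indicator_of_mem hu]
        have := hb0 (u + 1)
        linarith
      · simp only [ht]
        rw [indicator_of_notMem hu, zero_add]
        simp only [hb]
        rw [← hVout u hu]
        have h1 : (2 : ℝ) ^ ((u + 1) * n) = 2 ^ (u * n) * 2 ^ n := by
          rw [← pow_add]
          congr 1
          ring
        rw [h1]
        have h2 : (2 : ℝ) ≤ 2 ^ n := by
          calc (2 : ℝ) = 2 ^ 1 := (pow_one _).symm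
            _ ≤ 2 ^ n := pow_le_pow_right₀ one_le_two hn
        have h3 : 0 < (2 : ℝ) ^ (u * n) * V u := mul_pos (by positivity) (hV0 u)
        nlinarith
    have hts : Summable t := hs
    have hbs : Summable b := by
      apply summable_of_sum_range_le (c := 2 * (∑' u, t u) + 1) hb0
      intro M
      have h1 : ∑ u ∈ Finset.range M, b u ≤ ∑ u ∈ Finset.range M, (t u + 1 / 2 * b (u + 1)) :=
        Finset.sum_le_sum fun u _ => hrec u
      rw [Finset.sum_add_distrib, ← Finset.mul_sum] at h1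
      have h2 : ∑ u ∈ Finset.range M, t u ≤ ∑' u, t u := hts.sum_le_tsum _ fun u _ => ht0 u
      have h3 : ∑ u ∈ Finset.range M, b (u + 1) ≤ ∑ u ∈ Finset.range M, b u + b M := by
        rw [← Finset.sum_range_succ, Finset.sum_range_succ' (fun u => b u) M]
        have := hb0 0
        linarith
      have h4 := hb1 M
      linarith
    refine Summable.of_nonneg_of_le (fun u => ?_) (fun u => ?_) hbs
    · have := hw0 u
      positivity
    · have := hwV u
      simp only [hb]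
      gcongr

/-- points at which some form with slope more than `N` takes a small value -/
def UN (A : Matrix (Fin (d + 1)) (Fin m) ℝ) (ψ : ℕ → ℝ) (N : ℕ) : Set (Fin d → ℝ) :=
  {x | ∃ (z : Fin (d + m) → ℤ) (p : ℤ), z ≠ 0 ∧
    (N : ℝ) < ‖bvec A (fun i => z (Fin.castAdd m i)) (fun j => z (Fin.natAdd d j))‖ ∧
    |aff (p + acoef A (fun j => z (Fin.natAdd d j)))
      (bvec A (fun i => z (Fin.castAdd m i)) (fun j => z (Fin.natAdd d j))) x| < ψ (supNorm z)}

theorem continuous_aff (a : ℝ) (b : Fin d → ℝ) : Continuous (aff a b) := by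
  unfold aff
  fun_prop

theorem isOpen_UN (A : Matrix (Fin (d + 1)) (Fin m) ℝ) (ψ : ℕ → ℝ) (N : ℕ) :
    IsOpen (UN A ψ N) := by
  have e : UN A ψ N = ⋃ (z : Fin (d + m) → ℤ) (p : ℤ), {x | z ≠ 0 ∧
    (N : ℝ) < ‖bvec A (fun i => z (Fin.castAdd m i)) (fun j => z (Fin.natAdd d j))‖ ∧
    |aff (p + acoef A (fun j => z (Fin.natAdd d j)))
      (bvec A (fun i => z (Fin.castAdd m i)) (fun j => z (Fin.natAdd d j))) x| <
        ψ (supNorm z)} := by
    ext x
    simp only [UN, mem_ofPred_eq, mem_iUnion]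
  rw [e]
  refine isOpen_iUnion fun z => isOpen_iUnion fun p => ?_
  apply IsOpen.and isOpen_const
  apply IsOpen.and isOpen_const
  exact isOpen_lt (continuous_aff _ _).abs continuous_const

theorem mem_W_of_UN {A : Matrix (Fin (d + 1)) (Fin m) ℝ} {ψ : ℕ → ℝ} {x : Fin d → ℝ}
    (hx : ∀ N, x ∈ UN A ψ N) : point A x ∈ W ψ := by
  show {q : Fin (d + m) → ℤ | q ≠ 0 ∧
    distInt (∑ i, (q i : ℝ) * point A x i) < ψ (supNorm q)}.Infinite
  intro hfin
  obtain ⟨M, hM⟩ := (hfin.image (fun q : Fin (d + m) → ℤ =>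
    ‖bvec A (fun i => q (Fin.castAdd m i)) (fun j => q (Fin.natAdd d j))‖)).bddAbove
  obtain ⟨N, hN⟩ := exists_nat_ge M
  obtain ⟨z, p, hz, hzN, hzp⟩ := hx N
  have hmem : z ∈ {q : Fin (d + m) → ℤ | q ≠ 0 ∧
      distInt (∑ i, (q i : ℝ) * point A x i) < ψ (supNorm q)} := by
    refine ⟨hz, ?_⟩
    rw [distInt_lt_iff]
    refine ⟨p, ?_⟩
    rw [sum_point]
    have e : aff (p + acoef A (fun j => z (Fin.natAdd d j)))
      (bvec A (fun i => z (Fin.castAdd m i)) (fun j => z (Fin.natAdd d j))) x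
      = p + aff (acoef A (fun j => z (Fin.natAdd d j)))
      (bvec A (fun i => z (Fin.castAdd m i)) (fun j => z (Fin.natAdd d j))) x := by
      unfold aff
      ring
    rw [e] at hzp
    exact hzp
  have := hM (mem_image_of_mem _ hmem)
  linarith

/-- the levels with forms of large slope make the point rich -/
theorem rich_of_ls (hd : 0 < d) {s : ℝ} (hs1 : (d : ℝ) - 1 < s) (hs2 : s ≤ d)
    (A : Matrix (Fin (d + 1)) (Fin m) ℝ) (ψ : ℕ → ℝ) (hψ : Admissible ψ) (Ψ : ℕ → ℝ) (Ts : Set ℕ)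
    (w : ℕ → ℝ) (hw : ∀ u ∈ Ts, Ψ (2 ^ u) = w u) (hw0 : ∀ u, 0 < w u)
    (hw1 : ∀ u, w u ≤ 1 / 2 ^ (u * (d + m)))
    (hwψ : ∀ u, w u ≤ 2 ^ u * (ψ (2 ^ u) / 2 ^ u) ^ (s - (d - 1))) (N : ℕ) {x : Fin d → ℝ}
    (hx : LS A Ψ Ts x) : Rich s (UN A ψ N) x := by
  obtain ⟨κ, hκ, hfreq⟩ := hx
  have hd0 : (0 : ℝ) < d := by exact_mod_cast hd
  set η : ℝ := s - (d - 1) with hη
  have hη0 : 0 < η := by rw [hη]; linarith
  have hη1 : η ≤ 1 := by rw [hη]; linarith
  have hCA := CA_pos A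
  refine ⟨(1 / d) ^ (d - 1) * (2 / CA A) ^ η * κ / 4, by positivity, fun r' hr' => ?_⟩
  have hev1 : ∀ᶠ u : ℕ in atTop, 4 / (κ * r') < (2 : ℝ) ^ u :=
    (tendsto_pow_atTop_atTop_of_one_lt (one_lt_two)).eventually_gt_atTop _
  have hev2 : ∀ᶠ u : ℕ in atTop, (N : ℝ) / κ ≤ (2 : ℝ) ^ u :=
    (tendsto_pow_atTop_atTop_of_one_lt (one_lt_two)).eventually_ge_atTop _
  obtain ⟨u, ⟨huT, z, p, hz0, hzu, hzb, hzv⟩, hu1, hu2⟩ :=
    (hfreq.and_eventually (hev1.and hev2)).exists
  rw [hw u huT] at hzv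
  set b := bvec A (fun i => z (Fin.castAdd m i)) (fun j => z (Fin.natAdd d j)) with hb
  set a := (p : ℝ) + acoef A (fun j => z (Fin.natAdd d j)) with ha
  have hwu := hw0 u
  have h2u : (0 : ℝ) < 2 ^ u := by positivity
  have hw1' : w u ≤ 1 := (hw1 u).trans (by
    rw [div_le_one (by positivity)]
    exact one_le_pow₀ one_le_two)
  have hbpos : 0 < ‖b‖ := lt_trans (by positivity) hzb
  have hble : ‖b‖ ≤ CA A * 2 ^ u := by
    apply norm_bvec_le A (by positivity)
    · intro i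
      have := hzu (Fin.castAdd m i)
      rw [← Int.cast_abs]
      exact_mod_cast this
    · intro j
      have := hzu (Fin.natAdd d j)
      rw [← Int.cast_abs]
      exact_mod_cast this
  obtain ⟨i, hi⟩ := exists_max_coord hd b
  set ρ : ℝ := 4 * w u / (κ * 2 ^ u) with hρ
  have hρ0 : 0 < ρ := by positivity
  have hρr : ρ < r' := by
    rw [hρ, div_lt_iff₀ (by positivity)]
    rw [div_lt_iff₀ (by positivity)] at hu1
    nlinarith
  set y : ℝ := (w u / 2 ^ u) ^ (1 / η) with hy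
  have hy0 : 0 < y := by positivity
  set δ : ℝ := 2 ^ u * y with hδ
  have hδ0 : 0 < δ := by positivity
  have hyη : y ^ η = w u / 2 ^ u := by
    rw [hy, ← Real.rpow_mul (by positivity), one_div, inv_mul_cancel₀ hη0.ne', Real.rpow_one]
  have hδψ : δ ≤ ψ (2 ^ u) := by
    have hψ0 := hψ.1 (2 ^ u) Nat.one_le_two_pow
    have h1 : y ^ η ≤ (ψ (2 ^ u) / 2 ^ u) ^ η := by
      rw [hyη, div_le_iff₀ h2u]
      linarith [hwψ u]
    have h2 : y ≤ ψ (2 ^ u) / 2 ^ u := (Real.rpow_le_rpow_iff hy0.le (by positivity) hη0).mp h1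
    rw [le_div_iff₀ h2u] at h2
    rw [hδ]
    linarith
  have hδw : δ ≤ w u := by
    have h1 : w u / 2 ^ u ≤ 1 := by
      rw [div_le_one h2u]
      exact hw1'.trans (one_le_pow₀ one_le_two)
    have h2 : y ≤ w u / 2 ^ u := by
      rw [hy]
      have h3 : 1 ≤ 1 / η := by
        rw [le_div_iff₀ hη0]
        linarith
      calc (w u / 2 ^ u) ^ (1 / η) ≤ (w u / 2 ^ u) ^ (1 : ℝ) :=
            Real.rpow_le_rpow_of_exponent_ge (by positivity) h1 h3
        _ = w u / 2 ^ u := Real.rpow_one _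
    rw [le_div_iff₀ h2u] at h2
    rw [hδ]
    linarith
  refine ⟨ρ, hρ0, hρr, ?_⟩
  intro ι hι v ℓ hℓ hcov
  have hsub : ∀ y ∈ slabBox a b i x (ρ / (2 * d)) δ, y ∈ UN A ψ N ∧ y ∈ Metric.closedBall x ρ := by
    intro y hy
    constructor
    · refine ⟨z, p, hz0, ?_, ?_⟩
      · refine lt_of_le_of_lt ?_ hzb
        rw [div_le_iff₀ hκ] at hu2
        linarith
      · refine lt_of_lt_of_le hy.2 (hδψ.trans ?_)
        apply hψ.2 _ _ (supNorm_pos hz0)
        exact supNorm_le_iff.2 (by simpa using hzu)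
    · have h1 := slabBox_subset_closedBall hd hi hbpos (by positivity) hδ0.le hzv.le hy
      refine Metric.closedBall_subset_closedBall ?_ h1
      have h2 : (d : ℝ) * (ρ / (2 * d)) = ρ / 2 := by field_simp
      have h3 : (δ + w u) / ‖b‖ ≤ ρ / 2 := by
        rw [div_le_iff₀ hbpos]
        calc δ + w u ≤ 2 * w u := by linarith
          _ = ρ / 2 * (κ * 2 ^ u) := by
            rw [hρ]
            field_simp
            ring
          _ ≤ ρ / 2 * ‖b‖ := by gcongr
      rw [h2]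
      linarith
  have hmain := slab_content (ι := ι) hd hs1 hs2 (a := a) (b := b) (i := i) (c := x)
    (r := ρ / (2 * d)) (δ := δ) hi hbpos (by positivity) hδ0 v ℓ hℓ (fun y hy =>
      hcov y (hsub y hy).1 (hsub y hy).2)
  refine le_trans (ENNReal.ofReal_le_ofReal ?_) hmain
  rw [← hη]
  have h1 : 2 * (ρ / (2 * d)) = ρ * (1 / d) := by field_simp
  have h2 : (2 / CA A) ^ η * (κ * ρ / 4) ≤ (2 * δ / ‖b‖) ^ η := by
    calc (2 / CA A) ^ η * (κ * ρ / 4) = (2 / CA A) ^ η * (w u / 2 ^ u) := by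
          congr 1
          rw [hρ]
          field_simp
      _ = (2 / CA A) ^ η * y ^ η := by rw [hyη]
      _ = (2 / CA A * y) ^ η := by rw [Real.mul_rpow (by positivity) hy0.le]
      _ ≤ (2 * δ / ‖b‖) ^ η := by
          apply Real.rpow_le_rpow (by positivity) _ hη0.le
          rw [le_div_iff₀ hbpos, hδ]
          calc 2 / CA A * y * ‖b‖ ≤ 2 / CA A * y * (CA A * 2 ^ u) := by gcongr
            _ = 2 * (2 ^ u * y) := by field_simp
  rw [h1, mul_pow]
  have hρd : ρ ^ d = ρ ^ (d - 1) * ρ := by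
    rw [← pow_succ]
    congr 1
    omega
  calc (1 / d) ^ (d - 1) * (2 / CA A) ^ η * κ / 4 * ρ ^ d
      = ρ ^ (d - 1) * (1 / d) ^ (d - 1) * ((2 / CA A) ^ η * (κ * ρ / 4)) := by
        rw [hρd]
        ring
    _ ≤ _ := by gcongr

/-- **Full content.** -/
theorem full_UN (hd : 0 < d) {s : ℝ} (hs1 : (d : ℝ) - 1 < s) (hs2 : s ≤ d)
    (A : Matrix (Fin (d + 1)) (Fin m) ℝ) (c : ℝ) (hA : Crit A c) (ψ : ℕ → ℝ) (hψ : Admissible ψ)
    (hdiv : ¬ Summable (fun k : ℕ => (k : ℝ) ^ (d + m) * (ψ k / k) ^ (s - (d - 1)))) (N : ℕ) :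
    BW.Full s (UN A ψ N) := by
  have hd1 : (1 : ℝ) ≤ d := by exact_mod_cast hd
  set η : ℝ := s - (d - 1) with hη
  have hη0 : 0 < η := by rw [hη]; linarith
  set G : ℕ → ℝ := fun k => (ψ k / k) ^ η with hG
  have hGA : Admissible G := by
    constructor
    · intro k hk
      have h1 := hψ.1 k hk
      have h2 : (0 : ℝ) < k := by exact_mod_cast hk
      simp only [hG]
      positivity
    · intro j k hj hjk
      have h1 := hψ.1 k (hj.trans hjk)
      have h2 : (0 : ℝ) < j := by exact_mod_cast hj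
      have h3 : (j : ℝ) ≤ k := by exact_mod_cast hjk
      have h4 := hψ.2 j k hj hjk
      simp only [hG]
      apply Real.rpow_le_rpow (div_nonneg h1.le (h2.le.trans h3)) _ hη0.le
      apply div_le_div₀ (h1.le.trans h4) h4 h2 h3
  have hdiv' : ¬ Summable (fun t : ℕ => (2 : ℝ) ^ (t * (d + m + 1)) * G (2 ^ t)) := by
    rw [← summable_condensed_iff' (n := d + m + 1) (by omega) hGA]
    exact hdiv
  set w : ℕ → ℝ := fun u => min (2 ^ u * G (2 ^ u)) (1 / 2 ^ (u * (d + m))) with hw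
  have hG0 : ∀ u : ℕ, 0 < G (2 ^ u) := fun u => hGA.1 _ Nat.one_le_two_pow
  have hw0 : ∀ u, 0 < w u := fun u => lt_min (mul_pos (by positivity) (hG0 u)) (by positivity)
  have hw1 : ∀ u, w u ≤ 1 / 2 ^ (u * (d + m)) := fun u => min_le_right _ _
  have hwdiv : ¬ Summable (fun u : ℕ => (2 : ℝ) ^ (u * (d + m)) * w u) := by
    intro hs
    apply hdiv'
    have hlim := hs.tendsto_atTop_zero
    obtain ⟨M, hM⟩ := Filter.eventually_atTop.1 (hlim.eventually_lt_const (show (0 : ℝ) < 1 by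
      norm_num))
    rw [← summable_nat_add_iff M] at hs ⊢
    refine hs.congr fun t => ?_
    have h1 := hM (t + M) (by omega)
    simp only [hw] at h1 ⊢
    rcases min_choice ((2 : ℝ) ^ (t + M) * G (2 ^ (t + M))) (1 / 2 ^ ((t + M) * (d + m))) with h2 | h2
    · rw [h2]
      have : (2 : ℝ) ^ ((t + M) * (d + m + 1)) = 2 ^ ((t + M) * (d + m)) * 2 ^ (t + M) := by
        rw [← pow_add]
        congr 1
      rw [this]
      ring
    · rw [h2] at h1
      exfalso
      have : (2 : ℝ) ^ ((t + M) * (d + m)) * (1 / 2 ^ ((t + M) * (d + m))) = 1 := by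
        field_simp
      linarith
  obtain ⟨Ψ, Ts, hΨ, hΨT, hΨdiv⟩ := exists_levels (n := d + m) (by omega) w hw0 hw1 hwdiv
  have hae := div_ls hd A c hA Ψ hΨ Ts hΨdiv
  apply full_of_rich hd (by linarith) hs2
  filter_upwards [hae] with x hx
  refine rich_of_ls hd hs1 hs2 A ψ hψ Ψ Ts w hΨT hw0 hw1 (fun u => ?_) N hx
  refine (min_le_left _ _).trans (le_of_eq ?_)
  simp only [hG]
  push_cast
  rfl

end Pool.Agent.KS6_51.HG
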