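import Pool.Agent.KS6_51.BW.M3

set_option autoImplicit false

/-!
Countable intersections of open sets with full `s`-dimensional content have infinite
`s`-dimensional Hausdorff measure in every nonempty open set if `s < d`.
-/

namespace Pool.Agent.KS6_51.HG

open MeasureTheory Filter Topology Set
open scoped ENNReal
open Pool.Agent.KS6_51.BW

variable {d : ℕ}

theorem measure_ge (hd : 0 < d) {s : ℝ} (hs : 0 < s) (hsd : s ≤ d) (U : ℕ → Set (Fin d → ℝ))
    (hU : ∀ n, IsOpen (U n)) (hF : ∀ n, Full s (U n)) (L : ℕ × (Fin d → ℤ)) :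
    ENNReal.ofReal (1/2/10^d) * wt s L ≤
      Measure.hausdorffMeasure s {x : Fin d → ℝ | x ∈ Dc L ∧ ∀ n, x ∈ U n} := by
  rw [Measure.hausdorffMeasure_apply]
  refine le_iSup₂_of_le 1 one_pos ?_
  refine le_iInf fun A => le_iInf fun hcov => le_iInf fun hdiam => ?_
  refine (content hd hs hsd U hU hF L A hcov).trans (ENNReal.tsum_le_tsum fun n => ?_)
  by_cases hne : (A n).Nonempty
  · rw [iSup_pos hne]
  · have : A n = ∅ := not_nonempty_iff_eq_empty.mp hne
    rw [iSup_neg hne]
    simp only [this, Metric.ediam_empty]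
    rw [ENNReal.zero_rpow_of_pos hs]
    exact bot_le

theorem meas_D (p : ℕ × (Fin d → ℤ)) : MeasurableSet (D p) := by
  have e : D p = Set.pi univ fun i => Ico ((p.2 i:ℝ) / 2^p.1) (((p.2 i:ℝ)+1) / 2^p.1) := by
    ext x
    simp [D]
  rw [e]
  exact MeasurableSet.univ_pi fun i => measurableSet_Ico

/-- the children of a dyadic cube -/
def child (p : ℕ × (Fin d → ℤ)) (e : Fin d → Bool) : ℕ × (Fin d → ℤ) :=
  (p.1 + 1, fun i => 2 * p.2 i + (if e i then 1 else 0))

theorem child_sub (p : ℕ × (Fin d → ℤ)) (e : Fin d → Bool) : D (child p e) ⊆ D p := by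
  intro x hx i
  have h := hx i
  simp only [child, mem_Ico] at h ⊢
  have h2 : (0 : ℝ) < 2 ^ p.1 := by positivity
  rw [div_le_iff₀ (by positivity), lt_div_iff₀ (by positivity), pow_succ] at h
  rw [div_le_iff₀ h2, lt_div_iff₀ h2]
  push_cast at h
  by_cases he : e i
  · simp only [he, if_true] at h
    constructor <;> linarith [h.1, h.2]
  · simp only [he] at h
    constructor
    · have := h.1
      norm_num at this
      linarith
    · have := h.2
      norm_num at this
      linarith

theorem child_disj (p : ℕ × (Fin d → ℤ)) : Pairwise fun e e' : Fin d → Bool =>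
    Disjoint (D (child p e)) (D (child p e')) := by
  intro e e' hne
  rw [Set.disjoint_left]
  intro x hx hx'
  apply hne
  have h := D_inj hx hx' rfl
  have h2 : (child p e).2 = (child p e').2 := by rw [h]
  funext i
  have h3 := congrFun h2 i
  simp only [child] at h3
  by_cases h4 : e i <;> by_cases h5 : e' i <;> simp [h4, h5] at h3 ⊢

theorem corner_sub (p : ℕ × (Fin d → ℤ)) : Dc (child p fun _ => false) ⊆ D p := by
  intro x hx i
  have h := hx i
  simp only [child, mem_Icc, mem_Ico] at h ⊢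
  have h2 : (0 : ℝ) < 2 ^ p.1 := by positivity
  rw [div_le_iff₀ (by positivity), le_div_iff₀ (by positivity), pow_succ] at h
  rw [div_le_iff₀ h2, lt_div_iff₀ h2]
  push_cast at h
  norm_num at h
  constructor <;> linarith [h.1, h.2]

theorem wt_child (s : ℝ) (p : ℕ × (Fin d → ℤ)) (e : Fin d → Bool) :
    wt s (child p e) = ENNReal.ofReal (1 / 2) ^ s * wt s p := by
  unfold wt child
  simp only
  rw [← ENNReal.mul_rpow_of_ne_top ENNReal.ofReal_ne_top ENNReal.ofReal_ne_top,
    ← ENNReal.ofReal_mul (by norm_num)]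
  congr 2
  rw [pow_succ]
  field_simp

theorem measure_top (hd : 0 < d) {s : ℝ} (hs : 0 < s) (hsd : s < d) (U : ℕ → Set (Fin d → ℝ))
    (hU : ∀ n, IsOpen (U n)) (hF : ∀ n, Full s (U n)) (L : ℕ × (Fin d → ℤ)) :
    Measure.hausdorffMeasure s {x : Fin d → ℝ | x ∈ D L ∧ ∀ n, x ∈ U n} = ⊤ := by
  set μ : Measure (Fin d → ℝ) := Measure.hausdorffMeasure s with hμ
  set Z : Set (Fin d → ℝ) := {x | ∀ n, x ∈ U n} with hZ
  have hZm : MeasurableSet Z := by
    have : Z = ⋂ n, U n := by
      ext x
      simp [hZ]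
    rw [this]
    exact MeasurableSet.iInter fun n => (hU n).measurableSet
  set κ : ℝ≥0∞ := ENNReal.ofReal (1/2/10^d) * ENNReal.ofReal (1 / 2) ^ s with hκ
  have hκ0 : κ ≠ 0 := by
    apply mul_ne_zero
    · rw [ENNReal.ofReal_ne_zero_iff]
      positivity
    · apply (ENNReal.rpow_pos _ ENNReal.ofReal_ne_top).ne'
      rw [ENNReal.ofReal_pos]
      norm_num
  set q : ℝ≥0∞ := 2 ^ d * ENNReal.ofReal (1 / 2) ^ s with hq
  have hq1 : 1 < q := by
    have e1 : q = ENNReal.ofReal (2 ^ ((d : ℝ) - s)) := by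
      rw [hq, ENNReal.ofReal_rpow_of_pos (by norm_num)]
      have : (2 : ℝ≥0∞) ^ d = ENNReal.ofReal (2 ^ d) := by
        rw [ENNReal.ofReal_pow (by norm_num)]
        norm_num
      rw [this, ← ENNReal.ofReal_mul (by positivity)]
      congr 1
      rw [Real.rpow_sub (by norm_num), Real.rpow_natCast, one_div, Real.inv_rpow (by norm_num)]
      rfl
    rw [e1, ENNReal.one_lt_ofReal]
    exact Real.one_lt_rpow (by norm_num) (by linarith)
  have base : ∀ p : ℕ × (Fin d → ℤ), κ * wt s p ≤ μ (D p ∩ Z) := by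
    intro p
    have h1 := measure_ge hd hs hsd.le U hU hF (child p fun _ => false)
    rw [wt_child, ← mul_assoc] at h1
    refine h1.trans (measure_mono ?_)
    rintro x ⟨hx1, hx2⟩
    exact ⟨corner_sub p hx1, hx2⟩
  have step : ∀ j : ℕ, ∀ p : ℕ × (Fin d → ℤ), q ^ j * (κ * wt s p) ≤ μ (D p ∩ Z) := by
    intro j
    induction j with
    | zero =>
      intro p
      rw [pow_zero, one_mul]
      exact base p
    | succ j ih =>
      intro p
      have h1 : ∑ e : Fin d → Bool, μ (D (child p e) ∩ Z) ≤ μ (D p ∩ Z) := by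
        have h2 : μ (⋃ e : Fin d → Bool, (D (child p e) ∩ Z)) =
            ∑ e : Fin d → Bool, μ (D (child p e) ∩ Z) := by
          rw [measure_iUnion, tsum_fintype]
          · intro e e' hne
            exact ((child_disj p hne).mono inter_subset_left inter_subset_left)
          · intro e
            exact (meas_D _).inter hZm
        rw [← h2]
        apply measure_mono
        apply iUnion_subset
        intro e
        exact inter_subset_inter_left _ (child_sub p e)
      refine le_trans ?_ h1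
      calc q ^ (j + 1) * (κ * wt s p)
          = ∑ e : Fin d → Bool, q ^ j * (κ * wt s (child p e)) := by
            simp only [wt_child]
            rw [Finset.sum_const, Finset.card_univ, Fintype.card_fun, Fintype.card_bool,
              Fintype.card_fin, nsmul_eq_mul, pow_succ, hq]
            push_cast
            ring
        _ ≤ _ := Finset.sum_le_sum fun e _ => ih (child p e)
  have hset : {x : Fin d → ℝ | x ∈ D L ∧ ∀ n, x ∈ U n} = D L ∩ Z := rfl
  rw [hset]
  have hwt0 : wt s L ≠ 0 := by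
    unfold wt
    apply (ENNReal.rpow_pos _ ENNReal.ofReal_ne_top).ne'
    rw [ENNReal.ofReal_pos]
    positivity
  by_contra hne
  have hlim : Tendsto (fun j : ℕ => q ^ j) atTop (𝓝 ⊤) := ENNReal.tendsto_pow_atTop_nhds_top_iff.mpr hq1
  have hlim2 : Tendsto (fun j : ℕ => q ^ j * (κ * wt s L)) atTop (𝓝 (⊤ * (κ * wt s L))) := by
    apply ENNReal.Tendsto.mul_const hlim
    left
    exact ENNReal.top_ne_zero
  rw [ENNReal.top_mul (mul_ne_zero hκ0 hwt0)] at hlim2
  exact hne (top_le_iff.mp (le_of_tendsto' hlim2 fun j => step j L))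

theorem exists_D_subset (V : Set (Fin d → ℝ)) (hV : IsOpen V) (hne : V.Nonempty) :
    ∃ L : ℕ × (Fin d → ℤ), D L ⊆ V := by
  obtain ⟨x, hx⟩ := hne
  obtain ⟨ε, hε, hball⟩ := Metric.isOpen_iff.mp hV x hx
  obtain ⟨n, hn⟩ := exists_pow_lt_of_lt_one hε (show (1 / 2 : ℝ) < 1 by norm_num)
  refine ⟨(n, idx n x), fun y hy => hball ?_⟩
  rw [Metric.mem_ball]
  refine lt_of_le_of_lt ?_ hn
  rw [dist_pi_le_iff (by positivity)]
  intro i
  have h1 := hy i
  have h2 := mem_D_idx x n i
  simp only [mem_Ico] at h1 h2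
  have e : (((idx n x i : ℤ) : ℝ) + 1) / 2 ^ n = ((idx n x i : ℤ) : ℝ) / 2 ^ n + (1 / 2) ^ n := by
    rw [one_div_pow]
    ring
  rw [e] at h1 h2
  rw [Real.dist_eq, abs_le]
  constructor <;> linarith [h1.1, h1.2, h2.1, h2.2]

/-- **Infinite measure in every open set.** -/
theorem measure_open_top (hd : 0 < d) {s : ℝ} (hs : 0 < s) (hsd : s < d)
    (U : ℕ → Set (Fin d → ℝ)) (hU : ∀ n, IsOpen (U n)) (hF : ∀ n, Full s (U n))
    (V : Set (Fin d → ℝ)) (hV : IsOpen V) (hne : V.Nonempty) :
    Measure.hausdorffMeasure s (V ∩ {x : Fin d → ℝ | ∀ n, x ∈ U n}) = ⊤ := by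
  obtain ⟨L, hL⟩ := exists_D_subset V hV hne
  have h := measure_top hd hs hsd U hU hF L
  apply top_le_iff.mp
  rw [← h]
  apply measure_mono
  rintro x ⟨hx1, hx2⟩
  exact ⟨hL hx1, hx2⟩

end Pool.Agent.KS6_51.HG
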