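import Pool.Agent.KS6_51.BW.M1
import Pool.Graph.R_seed8.Y762.GA.Main

set_option autoImplicit false

/-!
The convergence half for Hausdorff measures: box counting for near-integer sets and the union bound
for the Hausdorff pre-measures.
-/

namespace Pool.Agent.KS6_51.HG

open MeasureTheory Filter Topology Set
open scoped ENNReal
open Pool.Agent.H639R3.G Pool.Agent.Y762.GA

variable {d m : ℕ}

/-- the pre-measure of size `r` -/
noncomputable def hp (s : ℝ) (r : ℝ≥0∞) : OuterMeasure (Fin d → ℝ) :=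
  OuterMeasure.mkMetric'.pre (fun S => Metric.ediam S ^ s) r

theorem hp_le {s : ℝ} {r : ℝ≥0∞} {S : Set (Fin d → ℝ)} (h : Metric.ediam S ≤ r) :
    hp s r S ≤ Metric.ediam S ^ s :=
  OuterMeasure.mkMetric'.pre_le h

theorem hausdorff_zero_of_hp {s : ℝ} {Z : Set (Fin d → ℝ)}
    (h : ∀ n : ℕ, 1 ≤ n → hp s ((n : ℝ≥0∞)⁻¹) Z = 0) : Measure.hausdorffMeasure s Z = 0 := by
  have h1 := OuterMeasure.mkMetric'.tendsto_pre_nat
    (fun S : Set (Fin d → ℝ) => Metric.ediam S ^ s) Z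
  have h2 : OuterMeasure.mkMetric' (fun S : Set (Fin d → ℝ) => Metric.ediam S ^ s) Z =
      Measure.hausdorffMeasure s Z := by
    have := OuterMeasure.coe_mkMetric (X := Fin d → ℝ) (fun r => r ^ s)
    have h3 := congrFun this Z
    rw [Measure.hausdorffMeasure, ← h3]
    rfl
  rw [h2] at h1
  refine tendsto_nhds_unique h1 ?_
  refine Tendsto.congr' ?_ tendsto_const_nhds
  filter_upwards [eventually_ge_atTop 1] with n hn
  exact (h n hn).symm

/-- box counting -/
theorem hp_box {E T : Set (Fin d → ℝ)} {τ v : ℝ} (hτ : 0 < τ)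
    (hT : ∀ x ∈ E, ∀ y, dist y x ≤ τ → y ∈ T) (hv : volume T ≤ ENNReal.ofReal v) {s : ℝ}
    (hs : 0 ≤ s) {r : ℝ≥0∞} (hr : ENNReal.ofReal τ ≤ r) :
    hp s r E ≤ ENNReal.ofReal (v * τ ^ (s - d)) := by
  classical
  set g : (Fin d → ℤ) → Set (Fin d → ℝ) := fun k => {y | ∀ i, y i ∈ Ico ((k i : ℝ) * τ) ((k i : ℝ) * τ + τ)}
    with hg
  set F : Set (Fin d → ℤ) := {k | (g k ∩ E).Nonempty} with hF
  have hdist : ∀ k, ∀ x ∈ g k, ∀ y ∈ g k, dist y x ≤ τ := by
    intro k x hx y hy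
    rw [dist_pi_le_iff hτ.le]
    intro i
    have h1 := hx i
    have h2 := hy i
    rw [Real.dist_eq, abs_le]
    constructor <;> linarith [h1.1, h1.2, h2.1, h2.2]
  have hgm : ∀ k, MeasurableSet (g k) := by
    intro k
    have e : g k = Set.pi univ fun i => Ico ((k i : ℝ) * τ) ((k i : ℝ) * τ + τ) := by
      ext x
      simp [hg]
    rw [e]
    exact MeasurableSet.univ_pi fun i => measurableSet_Ico
  have hgdisj : ∀ k k', k ≠ k' → Disjoint (g k) (g k') := by
    intro k k' hne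
    rw [Set.disjoint_left]
    intro x hx hx'
    apply hne
    funext i
    have h1 := hx i
    have h2 := hx' i
    have e1 : ⌊x i / τ⌋ = k i := by
      rw [Int.floor_eq_iff, le_div_iff₀ hτ, div_lt_iff₀ hτ]
      constructor
      · exact h1.1
      · have := h1.2
        linarith
    have e2 : ⌊x i / τ⌋ = k' i := by
      rw [Int.floor_eq_iff, le_div_iff₀ hτ, div_lt_iff₀ hτ]
      constructor
      · exact h2.1
      · have := h2.2
        linarith
    rw [← e1, ← e2]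
  have hcov : E ⊆ ⋃ k : F, g k := by
    intro x hx
    have hxg : x ∈ g fun i => ⌊x i / τ⌋ := by
      intro i
      have h1 := Int.floor_le (x i / τ)
      have h2 := Int.lt_floor_add_one (x i / τ)
      rw [le_div_iff₀ hτ] at h1
      rw [div_lt_iff₀ hτ] at h2
      constructor
      · exact h1
      · linarith
    exact mem_iUnion.mpr ⟨⟨_, ⟨x, hxg, hx⟩⟩, hxg⟩
  have hsum : ∑' k : F, ENNReal.ofReal τ ^ d ≤ ENNReal.ofReal v := by
    calc ∑' k : F, ENNReal.ofReal τ ^ d = ∑' k : F, volume (g k) := by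
          apply tsum_congr
          intro k
          exact (BW.vol_Ico (fun i => ((k.1 i : ℤ) : ℝ) * τ) τ).symm
      _ = volume (⋃ k : F, g k) := by
          rw [measure_iUnion]
          · intro k k' hne
            exact hgdisj k k' fun h => hne (Subtype.ext h)
          · intro k
            exact hgm k
      _ ≤ volume T := by
          apply measure_mono
          apply iUnion_subset
          rintro ⟨k, x, hxg, hxE⟩ y hy
          exact hT x hxE y (hdist k x hxg y hy)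
      _ ≤ _ := hv
  have hτ0 : ENNReal.ofReal τ ≠ 0 := by
    rw [ENNReal.ofReal_ne_zero_iff]
    exact hτ
  calc hp s r E ≤ hp s r (⋃ k : F, g k) := measure_mono hcov
    _ ≤ ∑' k : F, hp s r (g k) := measure_iUnion_le _
    _ ≤ ∑' k : F, ENNReal.ofReal τ ^ s := by
        apply ENNReal.tsum_le_tsum
        intro k
        have hdiam : Metric.ediam (g k) ≤ ENNReal.ofReal τ := by
          apply Metric.ediam_le
          intro x hx y hy
          rw [edist_dist]
          exact ENNReal.ofReal_le_ofReal (hdist k y hy x hx)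
        exact (hp_le (hdiam.trans hr)).trans (ENNReal.rpow_le_rpow hdiam hs)
    _ = ∑' k : F, ENNReal.ofReal τ ^ (s - d) * ENNReal.ofReal τ ^ d := by
        apply tsum_congr
        intro k
        rw [← ENNReal.rpow_natCast, ← ENNReal.rpow_add _ _ hτ0 ENNReal.ofReal_ne_top, sub_add_cancel]
    _ = ENNReal.ofReal τ ^ (s - d) * ∑' k : F, ENNReal.ofReal τ ^ d := ENNReal.tsum_mul_left
    _ ≤ ENNReal.ofReal τ ^ (s - d) * ENNReal.ofReal v := by gcongr
    _ = ENNReal.ofReal (v * τ ^ (s - d)) := by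
        rw [ENNReal.ofReal_rpow_of_pos hτ, ← ENNReal.ofReal_mul (by positivity), mul_comm]

/-- the pre-measure of a near-integer set -/
theorem hp_near (hd : 0 < d) (a : ℝ) (b x0 : Fin d → ℝ) {R δ : ℝ} (hb : 0 < ‖b‖) (hR : 0 < R)
    (hδ : 0 < δ) (hδ2 : (d + 1) * δ ≤ 1 / 2) {r : ℝ} (hr : δ / ‖b‖ ≤ r) (hr1 : r ≤ 1) {s : ℝ}
    (hs : 0 ≤ s) :
    hp s (ENNReal.ofReal r) {x | x ∈ Metric.closedBall x0 R ∧ ∃ p : ℤ, |p + aff a b x| < δ} ≤
      ENNReal.ofReal ((2 * (R + 1)) ^ d * (d + 1) * (2 * d + 2 / R) *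
        (δ ^ (s - (d - 1)) * (‖b‖ ^ (1 - (s - (d - 1))) + ‖b‖ ^ (-(s - (d - 1)))))) := by
  set τ : ℝ := δ / ‖b‖ with hτ
  have hτ0 : 0 < τ := by positivity
  set η : ℝ := s - (d - 1) with hη
  have hvol := volume_near_int_le hd a b x0 (ρ := R + τ) (δ := (d + 1) * δ) hb (by positivity)
    (by positivity) hδ2
  have hbox := hp_box (E := {x | x ∈ Metric.closedBall x0 R ∧ ∃ p : ℤ, |p + aff a b x| < δ})
    (τ := τ) hτ0 (T := {x | x ∈ Metric.closedBall x0 (R + τ) ∧
      ∃ p : ℤ, |p + aff a b x| < (d + 1) * δ}) (by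
      rintro x ⟨hx1, p, hx2⟩ y hyx
      refine ⟨?_, p, ?_⟩
      · rw [Metric.mem_closedBall] at hx1 ⊢
        calc dist y x0 ≤ dist y x + dist x x0 := dist_triangle _ _ _
          _ ≤ R + τ := by linarith
      · have h1 := aff_sub_le a b y x
        have h2 : (d : ℝ) * ‖b‖ * dist y x ≤ d * δ := by
          calc (d : ℝ) * ‖b‖ * dist y x ≤ d * ‖b‖ * τ := by gcongr
            _ = d * δ := by
              rw [hτ]
              field_simp
        calc |p + aff a b y| = |(p + aff a b x) + (aff a b y - aff a b x)| := by ring_nf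
          _ ≤ |p + aff a b x| + |aff a b y - aff a b x| := abs_add_le _ _
          _ < (d + 1) * δ := by linarith) hvol hs (r := ENNReal.ofReal r)
      (ENNReal.ofReal_le_ofReal hr)
  refine hbox.trans (ENNReal.ofReal_le_ofReal ?_)
  have hτr : τ ≤ 1 := hr.trans hr1
  have e1 : s - d = η - 1 := by rw [hη]; ring
  have e2 : δ * τ ^ (s - d) = δ ^ η * ‖b‖ ^ (1 - η) := by
    have e0 : ∀ y : ℝ, δ * (δ / ‖b‖) ^ (y - 1) = δ ^ y * ‖b‖ ^ (1 - y) := by
      intro y
      rw [Real.div_rpow hδ.le hb.le, Real.rpow_sub hδ, Real.rpow_one,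
        show (1 - y) = -(y - 1) by ring, Real.rpow_neg hb.le]
      field_simp
    rw [e1, hτ, e0]
  have e3 : ‖b‖ ^ (-η) = ‖b‖ ^ (1 - η) * (1 / ‖b‖) := by
    have e0 : ∀ y : ℝ, ‖b‖ ^ (-y) = ‖b‖ ^ (1 - y) * (1 / ‖b‖) := by
      intro y
      rw [show (1 - y) = -y + 1 by ring, Real.rpow_add hb, Real.rpow_one]
      field_simp
    exact e0 η
  have h1 : (2 * (R + τ)) ^ d ≤ (2 * (R + 1)) ^ d := by
    apply pow_le_pow_left₀ (by positivity)
    linarith
  have h2 : 2 * (d : ℝ) + 2 / ((R + τ) * ‖b‖) ≤ (2 * d + 2 / R) * (1 + 1 / ‖b‖) := by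
    have h3 : 2 / ((R + τ) * ‖b‖) ≤ 2 / R * (1 / ‖b‖) := by
      rw [div_mul_div_comm, mul_one]
      apply div_le_div_of_nonneg_left (by norm_num) (by positivity)
      gcongr
      linarith
    have h4 : 0 ≤ 2 / R := by positivity
    have h5 : 0 ≤ 2 * (d : ℝ) * (1 / ‖b‖) := by positivity
    nlinarith
  have hδη : 0 < δ ^ η := Real.rpow_pos_of_pos hδ _
  have hbη : 0 < ‖b‖ ^ (1 - η) := Real.rpow_pos_of_pos hb _
  calc (2 * (R + τ)) ^ d * ((d + 1) * δ) * (2 * d + 2 / ((R + τ) * ‖b‖)) * τ ^ (s - d)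
      = (2 * (R + τ)) ^ d * (d + 1) * (2 * d + 2 / ((R + τ) * ‖b‖)) * (δ * τ ^ (s - d)) := by ring
    _ = (2 * (R + τ)) ^ d * (d + 1) * (2 * d + 2 / ((R + τ) * ‖b‖)) *
          (δ ^ η * ‖b‖ ^ (1 - η)) := by rw [e2]
    _ ≤ (2 * (R + 1)) ^ d * (d + 1) * ((2 * d + 2 / R) * (1 + 1 / ‖b‖)) *
          (δ ^ η * ‖b‖ ^ (1 - η)) := by gcongr
    _ = _ := by
      rw [e3]
      ring

/-- the sum of `(1 / ‖A q‖) ^ η` -/
theorem sum_gq_pow {A : Matrix (Fin (d + 1)) (Fin m) ℝ} {β c η : ℝ} (h : Hyp' A β c)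
    (hη : 0 < η) (hβη : 2 ^ m < β ^ η) :
    ∃ K : ℝ, 0 < K ∧ ∀ t : ℕ, ∑ q ∈ box m (2 ^ t), (1 / gq A q) ^ η ≤ K * (β ^ η) ^ t := by
  classical
  have hβ : 0 < β := lt_trans (by positivity) h.lo
  have hβ1 : 1 < β := lt_of_le_of_lt (one_le_pow₀ one_le_two) h.lo
  have hc := h.cpos
  set B : ℝ := β ^ η with hB
  have hB0 : 0 < B := by positivity
  have hB1 : 1 < B := lt_of_le_of_lt (one_le_pow₀ one_le_two) hβη
  set ρ : ℕ → ℝ := fun j => c / 4 / β ^ j with hρdef
  have hρ : ∀ j, 0 < ρ j := fun j => by simp only [hρdef]; positivity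
  set ρ' : ℕ → ℝ := fun j => ρ j ^ η with hρ'def
  have hρ' : ∀ j, 0 < ρ' j := fun j => Real.rpow_pos_of_pos (hρ j) _
  set c4 : ℝ := (4 / c) ^ η with hc4
  have hc40 : 0 < c4 := by positivity
  have hρinv : ∀ j, 1 / ρ' j = c4 * B ^ j := by
    intro j
    simp only [hρ'def, hρdef, hc4, hB]
    rw [one_div, ← Real.inv_rpow (by positivity), ← Real.rpow_natCast, ← Real.rpow_natCast,
      ← Real.rpow_mul hβ.le, mul_comm η, Real.rpow_mul hβ.le, ← Real.mul_rpow (by positivity)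
      (by positivity)]
    congr 1
    field_simp
  set x := B / 2 ^ m with hx
  have hx1 : 1 < x := by rw [hx, lt_div_iff₀ (by positivity)]; simpa using hβη
  refine ⟨1 + c4 * 3 ^ m * (1 + B / (x - 1)), ?_, ?_⟩
  · have : 0 < x - 1 := by linarith
    positivity
  intro t
  have h0 : (0 : Fin m → ℤ) ∈ box m (2 ^ t) := by
    rw [mem_box]; intro i; simp
  rw [← Finset.add_sum_erase _ _ h0]
  have hz : (1 / gq A (0 : Fin m → ℤ)) ^ η = 1 := by simp [gq]
  have h2 : ∑ q ∈ (box m (2 ^ t)).erase 0, (1 / gq A q) ^ η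
      = ∑ q ∈ (box m (2 ^ t)).filter (fun q => q ≠ 0), (1 / distIntVec (ev A q)) ^ η := by
    rw [show (box m (2 ^ t)).filter (fun q => q ≠ 0) = (box m (2 ^ t)).erase 0 by
      ext q; simp [and_comm]]
    apply Finset.sum_congr rfl
    intro q hq
    rw [gq, if_neg (Finset.ne_of_mem_erase hq)]
  rw [hz, h2]
  have h1 : ∀ q ∈ (box m (2 ^ t)).filter (fun q => q ≠ 0), (1 / distIntVec (ev A q)) ^ η
      ≤ 1 / ρ' 0 + ∑ j ∈ Finset.range t,
        if distIntVec (ev A q) ≤ ρ j then 1 / ρ' (j + 1) else 0 := by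
    intro q hq
    have hq1 := Finset.mem_filter.1 hq
    have h3 := h.bd t q hq1.2 (by simpa using mem_box.1 hq1.1)
    have h4 : ρ t < distIntVec (ev A q) := by
      refine lt_of_lt_of_le ?_ h3
      simp only [hρdef]
      gcongr
      linarith
    have h5 : 0 < distIntVec (ev A q) := (hρ t).trans h4
    have h6 : ρ' t < distIntVec (ev A q) ^ η := Real.rpow_lt_rpow (hρ t).le h4 hη
    have h7 := inv_le_sum hρ' t h6
    rw [one_div, Real.inv_rpow h5.le, ← one_div]
    refine h7.trans (le_of_eq ?_)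
    congr 1
    apply Finset.sum_congr rfl
    intro j _
    have : distIntVec (ev A q) ^ η ≤ ρ' j ↔ distIntVec (ev A q) ≤ ρ j :=
      Real.rpow_le_rpow_iff h5.le (hρ j).le hη
    by_cases hj : distIntVec (ev A q) ≤ ρ j
    · rw [if_pos hj, if_pos (this.mpr hj)]
    · rw [if_neg hj, if_neg (fun h' => hj (this.mp h'))]
  have h2' : ∑ q ∈ (box m (2 ^ t)).filter (fun q => q ≠ 0), (1 / distIntVec (ev A q)) ^ η ≤
      c4 * 3 ^ m * (1 + B / (x - 1)) * B ^ t := by
    refine (Finset.sum_le_sum h1).trans ?_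
    have h2 : ∑ q ∈ (box m (2 ^ t)).filter (fun q => q ≠ 0), (1 / ρ' 0 + ∑ j ∈ Finset.range t,
          if distIntVec (ev A q) ≤ ρ j then 1 / ρ' (j + 1) else 0)
        ≤ ∑ q ∈ box m (2 ^ t), (1 / ρ' 0 + ∑ j ∈ Finset.range t,
          if distIntVec (ev A q) ≤ ρ j then 1 / ρ' (j + 1) else 0) := by
      apply Finset.sum_le_sum_of_subset_of_nonneg (Finset.filter_subset _ _)
      intro q _ _
      apply add_nonneg (one_div_pos.2 (hρ' 0)).le
      apply Finset.sum_nonneg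
      intro j _
      split_ifs
      · exact (one_div_pos.2 (hρ' _)).le
      · exact le_rfl
    refine h2.trans ?_
    rw [Finset.sum_add_distrib, Finset.sum_comm]
    have h3 : ∑ _q ∈ box m (2 ^ t), 1 / ρ' 0 ≤ c4 * 3 ^ m * (2 ^ m) ^ t := by
      rw [Finset.sum_const, nsmul_eq_mul]
      have hc1 : ((box m (2 ^ t)).card : ℝ) ≤ (3 * 2 ^ t) ^ m := by
        exact_mod_cast card_box_le (m := m) (N := 2 ^ t) Nat.one_le_two_pow
      calc ((box m (2 ^ t)).card : ℝ) * (1 / ρ' 0) ≤ (3 * 2 ^ t) ^ m * (1 / ρ' 0) := by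
            have := hρ' 0
            gcongr
        _ = c4 * 3 ^ m * (2 ^ m) ^ t := by
            rw [hρinv 0, pow_zero, mul_one, mul_pow, ← pow_mul, ← pow_mul, mul_comm t m]
            ring
    have h4 : ∑ j ∈ Finset.range t, ∑ q ∈ box m (2 ^ t),
        (if distIntVec (ev A q) ≤ ρ j then 1 / ρ' (j + 1) else 0)
        ≤ c4 * 3 ^ m * (B / (x - 1)) * B ^ t := by
      have h5 : ∀ j ∈ Finset.range t, ∑ q ∈ box m (2 ^ t),
          (if distIntVec (ev A q) ≤ ρ j then 1 / ρ' (j + 1) else 0)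
          ≤ c4 * 3 ^ m * B * (2 ^ m) ^ t * x ^ j := by
        intro j hj
        have hjt : j ≤ t := (Finset.mem_range.1 hj).le
        rw [← Finset.sum_filter, Finset.sum_const, nsmul_eq_mul]
        have hc1 : (((box m (2 ^ t)).filter (fun q => distIntVec (ev A q) ≤ ρ j)).card : ℝ)
            ≤ (3 * 2 ^ (t - j)) ^ m := by
          exact_mod_cast card_small' h hjt
        have h2t : (2 : ℝ) ^ t = 2 ^ (t - j) * 2 ^ j := by
          rw [← pow_add, Nat.sub_add_cancel hjt]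
        calc (((box m (2 ^ t)).filter (fun q => distIntVec (ev A q) ≤ ρ j)).card : ℝ)
              * (1 / ρ' (j + 1)) ≤ (3 * 2 ^ (t - j)) ^ m * (1 / ρ' (j + 1)) := by
              have := hρ' (j + 1)
              gcongr
          _ = c4 * 3 ^ m * B * (2 ^ m) ^ t * x ^ j := by
              rw [hρinv]
              simp only [hx]
              rw [← pow_mul, mul_comm m t, pow_mul, h2t, div_pow, ← pow_mul, mul_comm m j, pow_mul,
                mul_pow, mul_pow]
              field_simp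
              ring
      refine (Finset.sum_le_sum h5).trans ?_
      rw [← Finset.mul_sum, geom_sum_eq hx1.ne']
      have hxpos : 0 < x - 1 := by linarith
      have h6 : (x ^ t - 1) / (x - 1) ≤ x ^ t / (x - 1) := by gcongr; linarith
      calc c4 * 3 ^ m * B * (2 ^ m) ^ t * ((x ^ t - 1) / (x - 1))
          ≤ c4 * 3 ^ m * B * (2 ^ m) ^ t * (x ^ t / (x - 1)) := by gcongr
        _ = c4 * 3 ^ m * (B / (x - 1)) * B ^ t := by
            have : B ^ t = (2 ^ m) ^ t * x ^ t := by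
              rw [← mul_pow, hx]; congr 1; field_simp
            rw [this]; field_simp
    have h7 : ((2 : ℝ) ^ m) ^ t ≤ B ^ t := by
      gcongr
    calc _ ≤ c4 * 3 ^ m * (2 ^ m) ^ t + c4 * 3 ^ m * (B / (x - 1)) * B ^ t := add_le_add h3 h4
      _ ≤ c4 * 3 ^ m * B ^ t + c4 * 3 ^ m * (B / (x - 1)) * B ^ t := by gcongr
      _ = _ := by ring
  have h3 : (1 : ℝ) ≤ B ^ t := one_le_pow₀ hB1.le
  calc 1 + ∑ q ∈ (box m (2 ^ t)).filter (fun q => q ≠ 0), (1 / distIntVec (ev A q)) ^ η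
      ≤ B ^ t + c4 * 3 ^ m * (1 + B / (x - 1)) * B ^ t := add_le_add h3 h2'
    _ = _ := by ring

end Pool.Agent.KS6_51.HG
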