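import Pool.Agent.KS6_51.HG.H6

set_option autoImplicit false

/-!
The convergence half for Hausdorff measures.
-/

namespace Pool.Agent.KS6_51.HG

open MeasureTheory Filter Topology Set
open scoped ENNReal
open Pool.Agent.H639R3.G Pool.Agent.Y762.GA

variable {d m : ℕ}

theorem hp_Bad (hd : 0 < d) {A : Matrix (Fin (d + 1)) (Fin m) ℝ} {β c η s : ℝ}
    (h : Hyp' A β c) (hη : 0 < η) (hη1 : η ≤ 1) (hs : s = d - 1 + η)
    (hβη : β ^ η = 2 ^ ((d + m : ℝ) + 1 - η))
    (x0 : Fin d → ℝ) {ρ κ r : ℝ} (hρ : 0 < ρ) (hκ : 0 < κ) (hr : 0 < r) (hr1 : r ≤ 1) :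
    ∃ (C θ : ℝ) (t0 : ℕ), 0 < C ∧ 0 < θ ∧ ∀ t, t0 ≤ t → ∀ δ : ℝ, 0 < δ →
      δ ≤ θ / β ^ t → hp s (ENNReal.ofReal r) (Bad A x0 ρ t (κ * 2 ^ t) δ)
        ≤ ENNReal.ofReal (C * ((β ^ η) ^ t * δ ^ η)) := by
  classical
  have hd1 : (1 : ℝ) ≤ d := by exact_mod_cast hd
  have hβ : 1 < β := lt_of_le_of_lt (one_le_pow₀ one_le_two) h.lo
  have hβ0 : 0 < β := by linarith
  have hc := h.cpos
  have hsη : s - (d - 1) = η := by rw [hs]; ring
  have hs0 : 0 ≤ s := by rw [hs]; linarith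
  obtain ⟨K, hK, hsum⟩ := sum_gq_pow h hη (by
    rw [hβη, ← Real.rpow_natCast]
    apply Real.rpow_lt_rpow_of_exponent_lt one_lt_two
    linarith)
  set B : ℝ := β ^ η with hB
  have hB0 : 0 < B := by positivity
  set R := ‖x0‖ + ρ with hR
  have hR0 : 0 ≤ R := by positivity
  set K1 := 2 * (d * R + 1) with hK1
  have hK1pos : 0 < K1 := by positivity
  set C1 := (2 * (ρ + 1)) ^ d * (d + 1) * (2 * d + 2 / ρ) with hC1
  have hC1pos : 0 < C1 := by positivity
  set θ := min (c / 2) (min (r * c / K1) (1 / (2 * (d + 1)))) with hθ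
  have hθ0 : 0 < θ := by
    apply lt_min (by positivity)
    apply lt_min (by positivity) (by positivity)
  have e3 : ∀ᶠ t : ℕ in Filter.atTop, 1 / κ ≤ (2 : ℝ) ^ t :=
    (tendsto_pow_atTop_atTop_of_one_lt (one_lt_two)).eventually_ge_atTop _
  obtain ⟨t0, ht0⟩ := Filter.eventually_atTop.1 e3
  refine ⟨C1 * (2 * 3 ^ (d + m) * κ ^ ((d : ℝ) + 1 - η) + 3 ^ d * K1 ^ η * K), θ, t0, by positivity,
    hθ0, fun t ht δ hδ0 hδ => ?_⟩
  have f3 := ht0 t ht
  have hβt : 1 ≤ β ^ t := one_le_pow₀ hβ.le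
  have hβt0 : 0 < β ^ t := by positivity
  have hδ1 : δ ≤ c / 2 / β ^ t := hδ.trans (by gcongr; exact min_le_left _ _)
  have hδ2 : δ ≤ r * c / K1 / β ^ t :=
    hδ.trans (by gcongr; exact (min_le_right _ _).trans (min_le_left _ _))
  have hδ3 : (d + 1) * δ ≤ 1 / 2 := by
    have h1 : δ ≤ 1 / (2 * (d + 1)) := by
      refine hδ.trans ?_
      refine (div_le_self hθ0.le hβt).trans ?_
      exact (min_le_right _ _).trans (min_le_right _ _)
    rw [le_div_iff₀ (by positivity)] at h1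
    linarith
  have hδg : ∀ q : Fin m → ℤ, (∀ i, |q i| ≤ 2 ^ t) → δ ≤ gq A q / 2 := by
    intro q hq
    have h1 := gq_pos' h hq
    have h2 : δ ≤ c / β ^ t / 2 := by
      refine hδ1.trans (le_of_eq ?_)
      ring
    linarith
  have hgpos : ∀ q : Fin m → ℤ, (∀ i, |q i| ≤ 2 ^ t) → 0 < gq A q := by
    intro q hq
    exact lt_of_lt_of_le (by positivity) (gq_pos' h hq)
  set lam := κ * 2 ^ t with hlam
  have hlam1 : 1 ≤ lam := by
    rw [div_le_iff₀ hκ] at f3; linarith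
  have hlam0 : 0 ≤ lam := by linarith
  -- single sets
  set S : (Fin m → ℤ) → (Fin d → ℤ) → Set (Fin d → ℝ) := fun q q' =>
    {x | x ∈ Metric.closedBall x0 ρ ∧ ¬ (q' = 0 ∧ q = 0) ∧
      ∃ p : ℤ, |p + aff (acoef A q) (bvec A q' q) x| < δ} with hS
  have hcover : Bad A x0 ρ t lam δ ⊆ ⋃ q ∈ box m (2 ^ t), ⋃ q' ∈ slopeBox A q lam, S q q' := by
    rintro x ⟨hx, q', q, p, h1, h2, h3, h4⟩
    simp only [mem_iUnion]
    exact ⟨q, mem_box.2 (by simpa using h2), q', (mem_slopeBox hlam0).2 h3, hx, h1, p, h4⟩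
  set T : (Fin m → ℤ) → (Fin d → ℤ) → ℝ := fun q q' =>
    C1 * (δ ^ η * (2 * lam ^ (1 - η) + (if ‖bvec A q' q‖ ≤ 1 then K1 ^ η * (1 / gq A q) ^ η else 0)))
    with hT
  have hδη : 0 < δ ^ η := Real.rpow_pos_of_pos hδ0 _
  have hlamη : 1 ≤ lam ^ (1 - η) := Real.one_le_rpow hlam1 (by linarith)
  have hTnn : ∀ q ∈ box m (2 ^ t), ∀ q', 0 ≤ T q q' := by
    intro q hq q'
    have := hgpos q (by simpa using mem_box.1 hq)
    simp only [hT]
    split_ifs <;> positivity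
  have hsingle : ∀ q ∈ box m (2 ^ t), ∀ q' ∈ slopeBox A q lam,
      hp s (ENNReal.ofReal r) (S q q') ≤ ENNReal.ofReal (T q q') := by
    intro q hq q' hq'
    have hqb : ∀ i, |q i| ≤ 2 ^ t := by simpa using mem_box.1 hq
    have hg := hgpos q hqb
    by_cases hemp : (S q q').Nonempty
    · obtain ⟨x, hx, hne, p, hp'⟩ := hemp
      have hxR : ‖x‖ ≤ R := by
        have h1 := Metric.mem_closedBall.1 hx
        have h2 : ‖x‖ ≤ ‖x0‖ + ‖x - x0‖ := by
          calc ‖x‖ = ‖x0 + (x - x0)‖ := by congr 1; abel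
            _ ≤ _ := norm_add_le _ _
        rw [dist_eq_norm] at h1
        linarith
      have hbge := norm_bvec_ge hne hR0 hxR hp' (hδg q hqb)
      have hbpos : 0 < ‖bvec A q' q‖ := lt_of_lt_of_le (by positivity) hbge
      have hble : ‖bvec A q' q‖ ≤ lam := (mem_slopeBox hlam0).1 hq'
      have hδb : δ / ‖bvec A q' q‖ ≤ r := by
        rw [div_le_iff₀ hbpos]
        calc δ ≤ r * c / K1 / β ^ t := hδ2
          _ = r * (c / β ^ t / K1) := by field_simp
          _ ≤ r * (gq A q / K1) := by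
              have := gq_pos' h hqb
              gcongr
          _ ≤ r * ‖bvec A q' q‖ := by gcongr
      have h1 := hp_near hd (acoef A q) (bvec A q' q) x0 hbpos hρ hδ0 hδ3 hδb hr1 hs0
      refine (measure_mono (μ := hp s (ENNReal.ofReal r)) (t := {x | x ∈ Metric.closedBall x0 ρ ∧
        ∃ p : ℤ, |p + aff (acoef A q) (bvec A q' q) x| < δ}) ?_).trans
        (h1.trans (ENNReal.ofReal_le_ofReal ?_))
      · rintro y ⟨hy, _, hp⟩
        exact ⟨hy, hp⟩
      · rw [hsη]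
        simp only [hT]
        apply mul_le_mul_of_nonneg_left _ hC1pos.le
        apply mul_le_mul_of_nonneg_left _ hδη.le
        have g1 : ‖bvec A q' q‖ ^ (1 - η) ≤ lam ^ (1 - η) :=
          Real.rpow_le_rpow hbpos.le hble (by linarith)
        have g2 : ‖bvec A q' q‖ ^ (-η) ≤ lam ^ (1 - η) +
            (if ‖bvec A q' q‖ ≤ 1 then K1 ^ η * (1 / gq A q) ^ η else 0) := by
          split_ifs with hb
          · have g3 : ‖bvec A q' q‖ ^ (-η) ≤ K1 ^ η * (1 / gq A q) ^ η := by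
              rw [Real.rpow_neg hbpos.le, ← Real.inv_rpow hbpos.le,
                ← Real.mul_rpow (by positivity) (by positivity)]
              apply Real.rpow_le_rpow (by positivity) _ hη.le
              rw [div_le_iff₀ hK1pos] at hbge
              rw [inv_le_comm₀ hbpos (by positivity)]
              rw [mul_one_div, inv_div, div_le_iff₀ hK1pos]
              exact hbge
            linarith
          · push Not at hb
            have g3 : ‖bvec A q' q‖ ^ (-η) ≤ 1 :=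
              Real.rpow_le_one_of_one_le_of_nonpos hb.le (by linarith)
            linarith
        linarith
    · rw [not_nonempty_iff_eq_empty.1 hemp, measure_empty]
      exact zero_le
  have hstep : hp s (ENNReal.ofReal r) (Bad A x0 ρ t lam δ)
      ≤ ∑ q ∈ box m (2 ^ t), ∑ q' ∈ slopeBox A q lam, ENNReal.ofReal (T q q') := by
    refine (measure_mono hcover).trans ((measure_biUnion_finset_le _ _).trans ?_)
    apply Finset.sum_le_sum
    intro q hq
    refine (measure_biUnion_finset_le _ _).trans ?_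
    exact Finset.sum_le_sum fun q' hq' => hsingle q hq q' hq'
  refine hstep.trans ?_
  have hofReal : ∑ q ∈ box m (2 ^ t), ∑ q' ∈ slopeBox A q lam, ENNReal.ofReal (T q q')
      = ENNReal.ofReal (∑ q ∈ box m (2 ^ t), ∑ q' ∈ slopeBox A q lam, T q q') := by
    rw [ENNReal.ofReal_sum_of_nonneg fun q hq => Finset.sum_nonneg fun q' _ => hTnn q hq q']
    apply Finset.sum_congr rfl
    intro q hq
    rw [ENNReal.ofReal_sum_of_nonneg fun q' _ => hTnn q hq q']
  rw [hofReal]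
  apply ENNReal.ofReal_le_ofReal
  have hinner : ∀ q ∈ box m (2 ^ t), ∑ q' ∈ slopeBox A q lam, T q q'
      ≤ C1 * (δ ^ η * (2 * (3 * lam) ^ d * lam ^ (1 - η)
        + 3 ^ d * (K1 ^ η * (1 / gq A q) ^ η))) := by
    intro q hq
    have hg := hgpos q (by simpa using mem_box.1 hq)
    simp only [hT]
    rw [← Finset.mul_sum, ← Finset.mul_sum, Finset.sum_add_distrib]
    apply mul_le_mul_of_nonneg_left _ hC1pos.le
    apply mul_le_mul_of_nonneg_left _ hδη.le
    apply add_le_add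
    · rw [Finset.sum_const, nsmul_eq_mul]
      have h1 : ((slopeBox A q lam).card : ℝ) ≤ (3 * lam) ^ d := by
        refine (card_slopeBox_le A q hlam0).trans ?_
        apply pow_le_pow_left₀ (by positivity)
        linarith
      calc ((slopeBox A q lam).card : ℝ) * (2 * lam ^ (1 - η))
          ≤ (3 * lam) ^ d * (2 * lam ^ (1 - η)) := by gcongr
        _ = _ := by ring
    · rw [← Finset.sum_filter, Finset.sum_const, nsmul_eq_mul]
      have hcard : (((slopeBox A q lam).filter (fun q' => ‖bvec A q' q‖ ≤ 1)).card : ℝ)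
          ≤ 3 ^ d := by
        have h1 : ((slopeBox A q lam).filter (fun q' => ‖bvec A q' q‖ ≤ 1))
            ⊆ slopeBox A q 1 := by
          intro q' hq'
          exact (mem_slopeBox zero_le_one).2 (Finset.mem_filter.1 hq').2
        have h2 := card_slopeBox_le A q (lam := 1) zero_le_one
        have h3 : (((slopeBox A q lam).filter (fun q' => ‖bvec A q' q‖ ≤ 1)).card : ℝ)
          ≤ ((slopeBox A q 1).card : ℝ) := by exact_mod_cast Finset.card_le_card h1
        refine h3.trans (h2.trans (le_of_eq ?_))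
        norm_num
      gcongr
  refine (Finset.sum_le_sum hinner).trans ?_
  rw [← Finset.mul_sum, ← Finset.mul_sum, Finset.sum_add_distrib, Finset.sum_const, nsmul_eq_mul,
    ← Finset.mul_sum, ← Finset.mul_sum]
  have hboxc : ((box m (2 ^ t)).card : ℝ) ≤ (3 * 2 ^ t) ^ m := by
    exact_mod_cast card_box_le (m := m) (N := 2 ^ t) Nat.one_le_two_pow
  have hBt : B ^ t = ((2 : ℝ) ^ t) ^ m * ((2 : ℝ) ^ t) ^ d * ((2 : ℝ) ^ t) ^ (1 - η) := by
    have h2t : (0 : ℝ) < 2 ^ t := by positivity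
    rw [hβη, ← Real.rpow_natCast (2 ^ ((d + m : ℝ) + 1 - η)) t, ← Real.rpow_mul (by norm_num),
      ← Real.rpow_natCast (2 ^ t) m, ← Real.rpow_natCast (2 ^ t) d, ← Real.rpow_add h2t,
      ← Real.rpow_add h2t, ← Real.rpow_natCast 2 t, ← Real.rpow_mul (by norm_num)]
    congr 1
    ring
  have hκd : κ ^ ((d : ℝ) + 1 - η) = κ ^ d * κ ^ (1 - η) := by
    rw [← Real.rpow_natCast κ d, ← Real.rpow_add hκ]
    congr 1
    ring
  have hlamκ : lam ^ (1 - η) = κ ^ (1 - η) * ((2 : ℝ) ^ t) ^ (1 - η) := by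
    rw [hlam, Real.mul_rpow hκ.le (by positivity)]
  have g1 : ((box m (2 ^ t)).card : ℝ) * (2 * (3 * lam) ^ d * lam ^ (1 - η))
      ≤ 2 * 3 ^ (d + m) * κ ^ ((d : ℝ) + 1 - η) * B ^ t := by
    calc ((box m (2 ^ t)).card : ℝ) * (2 * (3 * lam) ^ d * lam ^ (1 - η))
        ≤ (3 * 2 ^ t) ^ m * (2 * (3 * lam) ^ d * lam ^ (1 - η)) := by gcongr
      _ = _ := by
        rw [hBt, hκd, hlamκ, hlam, mul_pow, mul_pow, mul_pow, pow_add]
        ring
  have g2 : 3 ^ d * (K1 ^ η * ∑ q ∈ box m (2 ^ t), (1 / gq A q) ^ η)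
      ≤ 3 ^ d * K1 ^ η * K * B ^ t := by
    calc 3 ^ d * (K1 ^ η * ∑ q ∈ box m (2 ^ t), (1 / gq A q) ^ η)
        ≤ 3 ^ d * (K1 ^ η * (K * B ^ t)) := by
          have := hsum t
          gcongr
      _ = _ := by ring
  calc C1 * (δ ^ η * (((box m (2 ^ t)).card : ℝ) * (2 * (3 * lam) ^ d * lam ^ (1 - η))
        + 3 ^ d * (K1 ^ η * ∑ q ∈ box m (2 ^ t), (1 / gq A q) ^ η)))
      ≤ C1 * (δ ^ η * (2 * 3 ^ (d + m) * κ ^ ((d : ℝ) + 1 - η) * B ^ t +
        3 ^ d * K1 ^ η * K * B ^ t)) := by gcongr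
    _ = _ := by ring

/-- the exponent of the criterion -/
noncomputable def tau (d m : ℕ) (s : ℝ) : ℝ := ((d + m : ℝ) + 1) / (s - (d - 1)) - 1

theorem tau_ge {d m : ℕ} {s : ℝ} (hs1 : (d : ℝ) - 1 < s) (hs2 : s ≤ d) : (d + m : ℝ) ≤ tau d m s := by
  unfold tau
  have h1 : 0 < s - (d - 1) := by linarith
  have h2 : s - (d - 1) ≤ 1 := by linarith
  have h3 : (d + m : ℝ) + 1 ≤ ((d + m : ℝ) + 1) / (s - (d - 1)) := by
    rw [le_div_iff₀ h1]
    have : (0 : ℝ) ≤ (d + m : ℝ) + 1 := by positivity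
    nlinarith
  linarith

/-- the criterion gives the quantitative hypothesis -/
theorem hyp_of_low {A : Matrix (Fin (d + 1)) (Fin m) ℝ} {τ c : ℝ} (hτ : (m : ℝ) < τ) (hc : 0 < c)
    (h : ∀ q : Fin m → ℤ, q ≠ 0 → c ≤ (supNorm q : ℝ) ^ τ * distIntVec (ev A q)) :
    Hyp' A (2 ^ τ) (min c 1) := by
  have hm0 : (0 : ℝ) ≤ m := Nat.cast_nonneg m
  refine ⟨?_, lt_min hc one_pos, min_le_right _ _, fun j q hq hj => ?_⟩
  · rw [← Real.rpow_natCast]
    exact Real.rpow_lt_rpow_of_exponent_lt one_lt_two hτ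
  · have h1 := h q hq
    have h2 : (supNorm q : ℝ) ≤ 2 ^ j := by
      have : supNorm q ≤ 2 ^ j := supNorm_le_iff.2 (by simpa using hj)
      exact_mod_cast this
    have h3 : (supNorm q : ℝ) ^ τ ≤ (2 ^ τ) ^ j := by
      calc (supNorm q : ℝ) ^ τ ≤ ((2 : ℝ) ^ j) ^ τ :=
            Real.rpow_le_rpow (Nat.cast_nonneg _) h2 (by linarith)
        _ = (2 ^ τ) ^ j := by
            rw [← Real.rpow_natCast, ← Real.rpow_natCast, ← Real.rpow_mul (by norm_num),
              ← Real.rpow_mul (by norm_num), mul_comm]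
    have h4 := distIntVec_nonneg (ev A q)
    rw [div_le_iff₀ (by positivity)]
    calc min c 1 ≤ c := min_le_left _ _
      _ ≤ (supNorm q : ℝ) ^ τ * distIntVec (ev A q) := h1
      _ ≤ (2 ^ τ) ^ j * distIntVec (ev A q) := by gcongr
      _ = _ := mul_comm _ _

/-- **Convergence.** -/
theorem conv (hd : 0 < d) (hm : 0 < m) {s : ℝ} (hs1 : (d : ℝ) - 1 < s) (hs2 : s ≤ d)
    (A : Matrix (Fin (d + 1)) (Fin m) ℝ) {c : ℝ} (hc : 0 < c)
    (h : ∀ q : Fin m → ℤ, q ≠ 0 → c ≤ (supNorm q : ℝ) ^ tau d m s * distIntVec (ev A q))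
    (ψ : ℕ → ℝ) (hψ : Admissible ψ)
    (hconv : Summable (fun k : ℕ => (k : ℝ) ^ (d + m) * (ψ k / k) ^ (s - (d - 1)))) :
    Measure.hausdorffMeasure s {x : Fin d → ℝ | point A x ∈ W ψ} = 0 := by
  classical
  have hd1 : (1 : ℝ) ≤ d := by exact_mod_cast hd
  set η : ℝ := s - (d - 1) with hη
  have hη0 : 0 < η := by rw [hη]; linarith
  have hη1 : η ≤ 1 := by rw [hη]; linarith
  have hsη : s = d - 1 + η := by rw [hη]; ring
  set τ : ℝ := tau d m s with hτ
  have hτn : (d + m : ℝ) ≤ τ := tau_ge hs1 hs2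
  have hτη : τ * η = (d + m : ℝ) + 1 - η := by
    rw [hτ, tau, ← hη]
    field_simp
  set β : ℝ := 2 ^ τ with hβ
  have hyp : Hyp' A β (min c 1) := hyp_of_low (by linarith) hc h
  have hβη : β ^ η = 2 ^ ((d + m : ℝ) + 1 - η) := by
    rw [hβ, ← Real.rpow_mul (by norm_num), hτη]
  have hβ1 : 1 < β := lt_of_le_of_lt (one_le_pow₀ one_le_two) hyp.lo
  have hβ0 : 0 < β := by linarith
  set G : ℕ → ℝ := fun k => (ψ k / k) ^ η with hG
  have hGA : Admissible G := by
    constructor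
    · intro k hk
      have h1 := hψ.1 k hk
      have h2 : (0 : ℝ) < k := by exact_mod_cast hk
      simp only [hG]
      positivity
    · intro j k hj hjk
      have h1 := hψ.1 k (hj.trans hjk)
      have h2 : (0 : ℝ) < j := by exact_mod_cast hj
      have h3 : (j : ℝ) ≤ k := by exact_mod_cast hjk
      have h4 := hψ.2 j k hj hjk
      simp only [hG]
      apply Real.rpow_le_rpow (div_nonneg h1.le (h2.le.trans h3)) _ hη0.le
      apply div_le_div₀ (h1.le.trans h4) h4 h2 h3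
  have hcond0 : Summable (fun t : ℕ => (2 : ℝ) ^ (t * (d + m + 1)) * G (2 ^ t)) := by
    rw [← summable_condensed_iff' (n := d + m + 1) (by omega) hGA]
    exact hconv
  have hψ0 : ∀ t : ℕ, 0 < ψ (2 ^ t) := fun t => hψ.1 _ Nat.one_le_two_pow
  have hterm : ∀ t : ℕ, (2 : ℝ) ^ (t * (d + m + 1)) * G (2 ^ t) = (β ^ η) ^ t * ψ (2 ^ t) ^ η := by
    intro t
    have h2t : (0 : ℝ) < 2 ^ t := by positivity
    simp only [hG]
    push_cast
    rw [Real.div_rpow (hψ0 t).le h2t.le, hβη]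
    have e1 : ((2 : ℝ) ^ ((d + m : ℝ) + 1 - η)) ^ t * ((2 : ℝ) ^ t) ^ η = 2 ^ (t * (d + m + 1)) := by
      rw [← Real.rpow_natCast (2 ^ ((d + m : ℝ) + 1 - η)) t, ← Real.rpow_mul (by norm_num),
        ← Real.rpow_natCast 2 t, ← Real.rpow_mul (by norm_num), ← Real.rpow_add (by norm_num),
        ← Real.rpow_natCast 2 (t * (d + m + 1))]
      congr 1
      push_cast
      ring
    rw [← e1]
    have h3 : ((2 : ℝ) ^ t) ^ η ≠ 0 := (Real.rpow_pos_of_pos h2t _).ne'
    field_simp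
  have hcond : Summable (fun t : ℕ => (β ^ η) ^ t * ψ (2 ^ t) ^ η) := hcond0.congr hterm
  have hBη : ∀ t : ℕ, (β ^ η) ^ t * ψ (2 ^ t) ^ η = (β ^ t * ψ (2 ^ t)) ^ η := by
    intro t
    rw [Real.mul_rpow (by positivity) (hψ0 t).le]
    congr 1
    rw [← Real.rpow_natCast, ← Real.rpow_natCast, ← Real.rpow_mul hβ0.le, ← Real.rpow_mul hβ0.le,
      mul_comm]
  -- reduction to balls
  have hball : ∀ (R N : ℕ), 1 ≤ N → hp s ((N : ℝ≥0∞)⁻¹) {x : Fin d → ℝ |
      x ∈ Metric.closedBall (0 : Fin d → ℝ) ((R : ℝ) + 1) ∧ point A x ∈ W ψ} = 0 := by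
    intro R N hN
    set ρ : ℝ := (R : ℝ) + 1 with hρ
    have hρ0 : 0 < ρ := by positivity
    have hN0 : (0 : ℝ) < N := by exact_mod_cast hN
    have hN1 : (1 : ℝ) ≤ N := by exact_mod_cast hN
    obtain ⟨C, θ, t0, hC, hθ, ht0⟩ := hp_Bad hd hyp hη0 hη1 hsη hβη (0 : Fin d → ℝ) hρ0 (CA_pos A)
      (r := 1 / N) (by positivity) (by rw [div_le_one hN0]; exact hN1)
    have hrN : ENNReal.ofReal (1 / (N : ℝ)) = (N : ℝ≥0∞)⁻¹ := by
      rw [one_div, ENNReal.ofReal_inv_of_pos hN0, ENNReal.ofReal_natCast]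
    rw [hrN] at ht0
    have hlim := hcond.tendsto_atTop_zero
    have hev : ∀ᶠ t : ℕ in Filter.atTop, (β ^ η) ^ t * ψ (2 ^ t) ^ η < (θ / β) ^ η :=
      hlim.eventually_lt_const (by positivity)
    obtain ⟨t1, ht1⟩ := Filter.eventually_atTop.1 hev
    set T := max t0 t1 with hT
    set E : ℕ → Set (Fin d → ℝ) := fun t => Bad A 0 ρ (t + T + 1) (CA A * 2 ^ (t + T + 1))
      (ψ (2 ^ (t + T))) with hE
    have hmeas : ∀ t, hp s ((N : ℝ≥0∞)⁻¹) (E t) ≤ ENNReal.ofReal (C *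
        β ^ η * ((β ^ η) ^ (t + T) * ψ (2 ^ (t + T)) ^ η)) := by
      intro t
      have h1 := ht1 (t + T) (by omega)
      rw [hBη] at h1
      have h1' : β ^ (t + T) * ψ (2 ^ (t + T)) < θ / β :=
        (Real.rpow_lt_rpow_iff (mul_nonneg (by positivity) (hψ0 _).le) (by positivity) hη0).mp h1
      have h2 := ht0 (t + T + 1) (by omega) (ψ (2 ^ (t + T))) (hψ0 _) (by
        rw [le_div_iff₀ (by positivity), pow_succ]
        rw [lt_div_iff₀ hβ0] at h1'
        nlinarith)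
      refine h2.trans (ENNReal.ofReal_le_ofReal (le_of_eq ?_))
      rw [pow_succ]; ring
    have hfin : ∑' t, hp s ((N : ℝ≥0∞)⁻¹) (E t) ≠ ⊤ := by
      have hs : Summable fun t : ℕ => C *
        β ^ η * ((β ^ η) ^ (t + T) * ψ (2 ^ (t + T)) ^ η) :=
        ((summable_nat_add_iff T).2 hcond).mul_left _
      have h1 := ENNReal.tsum_le_tsum hmeas
      refine ne_top_of_le_ne_top ?_ h1
      exact hs.tsum_ofReal_ne_top
    have hbc := measure_setOfPred_frequently_eq_zero (μ := hp s ((N : ℝ≥0∞)⁻¹))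
      (p := fun t x => x ∈ E t) hfin
    refine measure_mono_null ?_ hbc
    rintro x ⟨hx, hW⟩
    rw [mem_ofPred_eq, Filter.frequently_atTop]
    intro N
    -- some z of large norm
    have hfinite : {z : Fin (d + m) → ℤ | supNorm z < 2 ^ (N + T)}.Finite := by
      apply (box (d + m) (2 ^ (N + T))).finite_toSet.subset
      intro z hz
      exact mem_box.2 (supNorm_le_iff.1 (le_of_lt hz))
    obtain ⟨z, hz, hzN⟩ : ∃ z, z ∈ {q : Fin (d + m) → ℤ | q ≠ 0 ∧
        distInt (∑ i, (q i : ℝ) * point A x i) < ψ (supNorm q)} ∧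
        z ∉ {z : Fin (d + m) → ℤ | supNorm z < 2 ^ (N + T)} := by
      have := Set.Infinite.sdiff hW hfinite
      obtain ⟨z, hz⟩ := this.nonempty
      exact ⟨z, hz.1, hz.2⟩
    obtain ⟨hz0, hzlt⟩ := hz
    have hzN' : 2 ^ (N + T) ≤ supNorm z := not_lt.1 hzN
    set s := Nat.log 2 (supNorm z) with hs
    have hsup0 : supNorm z ≠ 0 := (supNorm_pos hz0).ne'
    have hs1 : 2 ^ s ≤ supNorm z := Nat.pow_log_le_self 2 hsup0
    have hs2 : supNorm z < 2 ^ (s + 1) := Nat.lt_pow_succ_log_self (by norm_num) _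
    have hsN : N + T ≤ s := by
      rw [hs]; exact Nat.le_log_of_pow_le (by norm_num) hzN'
    refine ⟨s - T, by omega, ?_⟩
    have hsT : s - T + T = s := by omega
    show x ∈ E (s - T)
    simp only [hE, hsT]
    rw [distInt_lt_iff] at hzlt
    obtain ⟨p, hp⟩ := hzlt
    rw [sum_point] at hp
    have hzle : ∀ i, |z i| ≤ ((2 ^ (s + 1) : ℕ) : ℤ) := supNorm_le_iff.1 hs2.le
    refine ⟨hx, _, _, p, ?_, ?_, ?_, lt_of_lt_of_le hp (hψ.2 _ _ Nat.one_le_two_pow hs1)⟩
    · rintro ⟨e1, e2⟩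
      apply hz0
      ext i
      refine Fin.addCases (fun i => ?_) (fun j => ?_) i
      · exact congrFun e1 i
      · exact congrFun e2 j
    · intro j; simpa using hzle (Fin.natAdd d j)
    · apply norm_bvec_le A (by positivity)
      · intro i
        have := hzle (Fin.castAdd m i)
        rw [← Int.cast_abs]; exact_mod_cast this
      · intro j
        have := hzle (Fin.natAdd d j)
        rw [← Int.cast_abs]; exact_mod_cast this
  apply hausdorff_zero_of_hp
  intro N hN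
  have hcov : {x : Fin d → ℝ | point A x ∈ W ψ} ⊆ ⋃ R : ℕ, {x : Fin d → ℝ |
      x ∈ Metric.closedBall (0 : Fin d → ℝ) ((R : ℝ) + 1) ∧ point A x ∈ W ψ} := by
    intro x hx
    obtain ⟨R, hR⟩ := exists_nat_ge ‖x‖
    refine mem_iUnion.2 ⟨R, ?_, hx⟩
    rw [Metric.mem_closedBall, dist_zero_right]; linarith
  exact measure_mono_null hcov (measure_iUnion_null fun R => hball R N hN)

end Pool.Agent.KS6_51.HG
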