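import Pool.Agent.KS6_51.HG.H7

set_option autoImplicit false

/-!
Necessity of the criterion for the Hausdorff measures (adaptation of the library file
`Y409/GA/Nec.lean`).
-/

namespace Pool.Agent.KS6_51.HG

open MeasureTheory Filter Topology Set
open scoped ENNReal
open Pool.Agent.H639R3.G Pool.Agent.Y762.GA
open Pool.Agent

variable {d m : ℕ}

theorem exists_psi_real (n : ℕ) {a : ℝ} (ha : 0 < a) (han : a ≤ n) (N : ℕ → ℕ) (v : ℕ → ℝ)
    (hv : ∀ k, 0 ≤ v k) (hs : Summable (fun k => v k * ((N k : ℝ) + 1) ^ (a + 1))) :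
    ∃ ψ : ℕ → ℝ, Admissible ψ ∧ Summable (fun k : ℕ => (k : ℝ) ^ a * ψ k) ∧
      ∀ k j, j ≤ N k → v k < ψ j := by
  classical
  have hN1 : ∀ k, (1 : ℝ) ≤ (N k : ℝ) + 1 := fun k => by
    linarith [Nat.cast_nonneg (α := ℝ) (N k)]
  have hvs : Summable v := by
    refine Summable.of_nonneg_of_le hv (fun k => ?_) hs
    exact le_mul_of_one_le_right (hv k) (Real.one_le_rpow (hN1 k) (by linarith))
  have hnn : ∀ j k, 0 ≤ (if j ≤ N k then v k else 0) := by
    intro j k
    split_ifs
    · exact hv k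
    · exact le_refl _
  have hfs : ∀ j : ℕ, Summable (fun k => if j ≤ N k then v k else 0) := by
    intro j
    refine Summable.of_nonneg_of_le (hnn j) (fun k => ?_) hvs
    split_ifs
    · exact le_refl _
    · exact hv k
  refine ⟨fun j => (1 / 2 : ℝ) ^ j + ∑' k, (if j ≤ N k then v k else 0), ⟨?_, ?_⟩, ?_, ?_⟩
  · intro j _
    have : 0 ≤ ∑' k, (if j ≤ N k then v k else 0) := tsum_nonneg (hnn j)
    positivity
  · intro j k _ hjk
    have h1 : (1 / 2 : ℝ) ^ k ≤ (1 / 2) ^ j := pow_le_pow_of_le_one (by norm_num) (by norm_num) hjk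
    have h2 : ∑' i, (if k ≤ N i then v i else 0) ≤ ∑' i, (if j ≤ N i then v i else 0) := by
      refine Summable.tsum_le_tsum (fun i => ?_) (hfs k) (hfs j)
      by_cases h3 : k ≤ N i
      · rw [if_pos h3, if_pos (hjk.trans h3)]
      · rw [if_neg h3]
        exact hnn j i
    exact add_le_add h1 h2
  · have h1 : Summable (fun k : ℕ => (k : ℝ) ^ a * (1 / 2 : ℝ) ^ k) := by
      refine Summable.of_nonneg_of_le (fun k => by positivity) (fun k => ?_)
        (summable_pow_mul_geometric_of_norm_lt_one (R := ℝ) n (r := 1 / 2) (by norm_num))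
      apply mul_le_mul_of_nonneg_right _ (by positivity)
      rcases Nat.eq_zero_or_pos k with rfl | hk
      · rw [Nat.cast_zero, Real.zero_rpow ha.ne']
        positivity
      · rw [← Real.rpow_natCast]
        exact Real.rpow_le_rpow_of_exponent_le (by exact_mod_cast hk) han
    have h2 : Summable (fun j : ℕ => (j : ℝ) ^ a * ∑' k, (if j ≤ N k then v k else 0)) := by
      apply summable_of_sum_range_le (c := ∑' k, v k * ((N k : ℝ) + 1) ^ (a + 1))
      · intro j
        have : 0 ≤ ∑' k, (if j ≤ N k then v k else 0) := tsum_nonneg (hnn j)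
        positivity
      · intro J
        have e1 : ∑ j ∈ Finset.range J, (j : ℝ) ^ a * ∑' k, (if j ≤ N k then v k else 0) =
            ∑' k, ∑ j ∈ Finset.range J, (j : ℝ) ^ a * (if j ≤ N k then v k else 0) := by
          rw [Summable.tsum_finsetSum (fun j _ => (hfs j).mul_left _)]
          apply Finset.sum_congr rfl
          intro j _
          rw [tsum_mul_left]
        rw [e1]
        refine Summable.tsum_le_tsum (fun k => ?_)
          (summable_sum (fun j _ => (hfs j).mul_left _)) hs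
        have e2 : ∑ j ∈ Finset.range J, (j : ℝ) ^ a * (if j ≤ N k then v k else 0) ≤
            ∑ j ∈ Finset.range (N k + 1), ((N k : ℝ) + 1) ^ a * v k := by
          calc ∑ j ∈ Finset.range J, (j : ℝ) ^ a * (if j ≤ N k then v k else 0)
              = ∑ j ∈ (Finset.range J).filter (fun j => j ≤ N k), (j : ℝ) ^ a * v k := by
                rw [Finset.sum_filter]
                apply Finset.sum_congr rfl
                intro j _
                split_ifs
                · rfl
                · simp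
            _ ≤ ∑ j ∈ (Finset.range J).filter (fun j => j ≤ N k),
                  ((N k : ℝ) + 1) ^ a * v k := by
                apply Finset.sum_le_sum
                intro j hj
                have h3 : (j : ℝ) ≤ (N k : ℝ) + 1 := by
                  have := (Finset.mem_filter.1 hj).2
                  have h4 : (j : ℝ) ≤ (N k : ℝ) := by exact_mod_cast this
                  linarith
                exact mul_le_mul_of_nonneg_right
                  (Real.rpow_le_rpow (Nat.cast_nonneg _) h3 ha.le) (hv k)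
            _ ≤ _ := by
                apply Finset.sum_le_sum_of_subset_of_nonneg
                · intro j hj
                  have := (Finset.mem_filter.1 hj).2
                  exact Finset.mem_range.2 (by omega)
                · intro j _ _
                  exact mul_nonneg (by positivity) (hv k)
        refine e2.trans (le_of_eq ?_)
        rw [Finset.sum_const, Finset.card_range, nsmul_eq_mul]
        push_cast
        rw [Real.rpow_add (by linarith [hN1 k]), Real.rpow_one]
        ring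
    have := h1.add h2
    refine this.congr (fun k => ?_)
    ring
  · intro k j hj
    have h1 : v k ≤ ∑' i, (if j ≤ N i then v i else 0) := by
      have := (hfs j).le_tsum k (fun i _ => hnn j i)
      rwa [if_pos hj] at this
    have h2 : (0 : ℝ) < (1 / 2 : ℝ) ^ j := by positivity
    show v k < (1 / 2 : ℝ) ^ j + ∑' i, (if j ≤ N i then v i else 0)
    linarith

theorem step1_real (A : Matrix (Fin (d + 1)) (Fin m) ℝ) {τ : ℝ} (hτ : 0 ≤ τ)
    (h : ∀ c : ℝ, 0 < c → ∃ q : Fin m → ℤ, q ≠ 0 ∧
      (supNorm q : ℝ) ^ τ * distIntVec (ev A q) < c) (c : ℝ) (hc : 0 < c) (N : ℕ) :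
    ∃ q : Fin m → ℤ, q ≠ 0 ∧ N ≤ supNorm q ∧
      (supNorm q : ℝ) ^ τ * distIntVec (ev A q) < c := by
  by_cases hz : ∃ q : Fin m → ℤ, q ≠ 0 ∧ distIntVec (ev A q) = 0
  · obtain ⟨q, hq, h0⟩ := hz
    refine ⟨((N : ℤ) + 1) • q, smul_ne_zero (by omega) hq, ?_, ?_⟩
    · obtain ⟨i, hi⟩ := Function.ne_iff.1 hq
      have h1 := Y409.GA.le_supNorm (((N : ℤ) + 1) • q) i
      rw [Pi.smul_apply, smul_eq_mul, Int.natAbs_mul] at h1
      have h2 : 0 < (q i).natAbs := Int.natAbs_pos.2 hi
      have h3 : ((N : ℤ) + 1).natAbs = N + 1 := by omega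
      rw [h3] at h1
      have h4 : N + 1 ≤ (N + 1) * (q i).natAbs := Nat.le_mul_of_pos_right _ h2
      omega
    · rw [Y409.GA.dist_smul_zero A q h0, mul_zero]
      exact hc
  · push Not at hz
    have hfin : {q : Fin m → ℤ | q ≠ 0 ∧ supNorm q < N}.Finite := by
      refine (box m N).finite_toSet.subset ?_
      intro q hq
      have hq2 : supNorm q < N := hq.2
      rw [Finset.mem_coe, mem_box]
      exact supNorm_le_iff.1 hq2.le
    obtain ⟨c0, hc0, hc1, hc2⟩ := exists_pos_le_finite hfin (fun q => distIntVec (ev A q))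
      (fun q hq => lt_of_le_of_ne (distIntVec_nonneg _) (Ne.symm (hz q hq.1)))
    obtain ⟨q, hq, hlt⟩ := h (min c c0) (lt_min hc hc0)
    refine ⟨q, hq, ?_, hlt.trans_le (min_le_left _ _)⟩
    by_contra hcon
    push Not at hcon
    have h1 := hc2 q ⟨hq, hcon⟩
    have h2 : (1 : ℝ) ≤ (supNorm q : ℝ) ^ τ := by
      apply Real.one_le_rpow _ hτ
      exact_mod_cast supNorm_pos hq
    have h3 : distIntVec (ev A q) ≤ (supNorm q : ℝ) ^ τ * distIntVec (ev A q) :=
      le_mul_of_one_le_left (distIntVec_nonneg _) h2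
    have h4 := hlt.trans_le (min_le_right _ _)
    linarith

/-- **Necessity.** -/
theorem nec (hd : 0 < d) (hm : 0 < m) {s : ℝ} (hs1 : (d : ℝ) - 1 < s) (hs2 : s ≤ d)
    (A : Matrix (Fin (d + 1)) (Fin m) ℝ)
    (hA : ∀ ψ : ℕ → ℝ, Admissible ψ →
      Summable (fun k : ℕ => (k : ℝ) ^ (d + m) * (ψ k / k) ^ (s - (d - 1))) →
      Measure.hausdorffMeasure s {x : Fin d → ℝ | point A x ∈ W ψ} = 0) :
    ∃ c : ℝ, 0 < c ∧ ∀ q : Fin m → ℤ, q ≠ 0 →
      c ≤ (supNorm q : ℝ) ^ tau d m s * distIntVec (ev A q) := by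
  have hd1 : (1 : ℝ) ≤ d := by exact_mod_cast hd
  have hm1 : (1 : ℝ) ≤ m := by exact_mod_cast hm
  set η : ℝ := s - (d - 1) with hη
  have hη0 : 0 < η := by rw [hη]; linarith
  have hη1 : η ≤ 1 := by rw [hη]; linarith
  set τ : ℝ := tau d m s with hτ
  have hτn : (d + m : ℝ) ≤ τ := tau_ge hs1 hs2
  have hτη : τ * η = (d + m : ℝ) + 1 - η := by
    rw [hτ, tau, ← hη]
    field_simp
  set a : ℝ := (d + m : ℝ) - η with ha
  have ha0 : 0 < a := by rw [ha]; linarith
  have haτ : a + 1 = τ * η := by rw [ha, hτη]; ring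
  by_contra hcon
  push Not at hcon
  have hstep := step1_real A (τ := τ) (by linarith) hcon
  choose q hq0 hqN hqv using fun k : ℕ => hstep (((1 / 2 : ℝ) ^ k) ^ (1 / η)) (by positivity) (k + 1)
  set C : ℕ := ⌈CA A⌉₊ with hC
  set N : ℕ → ℕ := fun k => C * supNorm (q k) with hN
  set v : ℕ → ℝ := fun k => (1 + d) * distIntVec (ev A (q k)) with hv
  have hvnn : ∀ k, 0 ≤ v k := fun k => mul_nonneg (by positivity) (distIntVec_nonneg _)
  have hsum : Summable (fun k => v k ^ η * ((N k : ℝ) + 1) ^ (a + 1)) := by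
    refine Summable.of_nonneg_of_le (fun k => mul_nonneg (Real.rpow_nonneg (hvnn k) _)
      (by positivity)) (fun k => ?_)
      ((summable_geometric_of_lt_one (r := (1 / 2 : ℝ)) (by norm_num) (by norm_num)).mul_left
        (((1 + (d : ℝ)) * ((C : ℝ) + 1) ^ τ) ^ η))
    have h1 : (1 : ℝ) ≤ supNorm (q k) := by exact_mod_cast supNorm_pos (hq0 k)
    have h2 : (N k : ℝ) + 1 ≤ ((C : ℝ) + 1) * supNorm (q k) := by
      simp only [hN]
      push_cast
      linarith
    have hd0 := distIntVec_nonneg (ev A (q k))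
    have h3 : ((N k : ℝ) + 1) ^ (a + 1) ≤ ((((C : ℝ) + 1) * supNorm (q k)) ^ τ) ^ η := by
      rw [haτ, Real.rpow_mul (by positivity)]
      apply Real.rpow_le_rpow (by positivity) _ hη0.le
      apply Real.rpow_le_rpow (by positivity) h2 (by linarith)
    calc v k ^ η * ((N k : ℝ) + 1) ^ (a + 1)
        ≤ v k ^ η * ((((C : ℝ) + 1) * supNorm (q k)) ^ τ) ^ η :=
          mul_le_mul_of_nonneg_left h3 (Real.rpow_nonneg (hvnn k) _)
      _ = (v k * (((C : ℝ) + 1) * supNorm (q k)) ^ τ) ^ η := by
          rw [Real.mul_rpow (hvnn k) (by positivity)]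
      _ = ((1 + (d : ℝ)) * ((C : ℝ) + 1) ^ τ *
            ((supNorm (q k) : ℝ) ^ τ * distIntVec (ev A (q k)))) ^ η := by
          congr 1
          rw [Real.mul_rpow (by positivity) (by positivity)]
          simp only [hv]
          ring
      _ = ((1 + (d : ℝ)) * ((C : ℝ) + 1) ^ τ) ^ η *
            ((supNorm (q k) : ℝ) ^ τ * distIntVec (ev A (q k))) ^ η := by
          rw [Real.mul_rpow (by positivity) (by positivity)]
      _ ≤ ((1 + (d : ℝ)) * ((C : ℝ) + 1) ^ τ) ^ η * (((1 / 2 : ℝ) ^ k) ^ (1 / η)) ^ η := by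
          apply mul_le_mul_of_nonneg_left _ (by positivity)
          exact Real.rpow_le_rpow (by positivity) (hqv k).le hη0.le
      _ = _ := by
          rw [← Real.rpow_mul (by positivity) (1 / η) η, one_div_mul_cancel hη0.ne',
            Real.rpow_one]
  obtain ⟨ψ₁, hψ₁, hψ₁s, hψ₁v⟩ := exists_psi_real (d + m) ha0 (by
    push_cast
    rw [ha]
    linarith) N (fun k => v k ^ η) (fun k => Real.rpow_nonneg (hvnn k) _) hsum
  set ψ : ℕ → ℝ := fun k => (ψ₁ k) ^ (1 / η) with hψdef
  have hψ : Admissible ψ := by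
    constructor
    · intro k hk
      exact Real.rpow_pos_of_pos (hψ₁.1 k hk) _
    · intro j k hj hjk
      exact Real.rpow_le_rpow (hψ₁.1 k (hj.trans hjk)).le (hψ₁.2 j k hj hjk) (by positivity)
  have hψs : Summable (fun k : ℕ => (k : ℝ) ^ (d + m) * (ψ k / k) ^ η) := by
    refine hψ₁s.congr fun k => ?_
    rcases Nat.eq_zero_or_pos k with rfl | hk
    · rw [Nat.cast_zero, Real.zero_rpow ha0.ne', zero_mul, zero_pow (by omega), zero_mul]
    · have hk0 : (0 : ℝ) < k := by exact_mod_cast hk
      have h1 := hψ₁.1 k hk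
      rw [Real.div_rpow (hψ.1 k hk).le hk0.le]
      have h2 : ψ k ^ η = ψ₁ k := by
        simp only [hψdef]
        rw [← Real.rpow_mul h1.le, one_div, inv_mul_cancel₀ hη0.ne', Real.rpow_one]
      rw [h2, ha, Real.rpow_sub hk0]
      have h3 : (k : ℝ) ^ ((d : ℝ) + m) = (k : ℝ) ^ (d + m) := by
        rw [← Real.rpow_natCast]
        congr 1
        push_cast
        ring
      rw [h3]
      ring
  have hψv : ∀ k j, j ≤ N k → v k < ψ j ∨ v k = 0 ∧ j = 0 := by
    intro k j hj
    left
    have h1 := hψ₁v k j hj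
    have h0 : 0 ≤ v k ^ η := Real.rpow_nonneg (hvnn k) _
    have h2 : (v k ^ η) ^ (1 / η) < ψ₁ j ^ (1 / η) :=
      Real.rpow_lt_rpow h0 h1 (by positivity)
    rw [← Real.rpow_mul (hvnn k), one_div, mul_inv_cancel₀ hη0.ne', Real.rpow_one] at h2
    simp only [hψdef]
    rw [one_div]
    exact h2
  have hvol := hA ψ hψ hψs
  have hsub : Metric.closedBall (0 : Fin d → ℝ) 1 ⊆ {x : Fin d → ℝ | point A x ∈ W ψ} := by
    intro x hx
    show point A x ∈ W ψ
    unfold W
    show {z : Fin (d + m) → ℤ | z ≠ 0 ∧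
      distInt (∑ i, (z i : ℝ) * point A x i) < ψ (supNorm z)}.Infinite
    apply Set.Infinite.of_image supNorm
    apply Set.infinite_of_forall_exists_gt
    intro a
    have hz0 : Y409.GA.zz A (q a) ≠ 0 := by
      intro h0
      have h1 := Y409.GA.supNorm_zz_ge A (q a)
      rw [h0] at h1
      have h2 := hqN a
      have h3 : supNorm (0 : Fin (d + m) → ℤ) = 0 := by
        unfold supNorm
        simp
      omega
    refine ⟨supNorm (Y409.GA.zz A (q a)), ⟨Y409.GA.zz A (q a), ⟨hz0, ?_⟩, rfl⟩, ?_⟩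
    · rw [distInt_lt_iff]
      refine ⟨-round (ev A (q a) 0), ?_⟩
      refine lt_of_le_of_lt (Y409.GA.value_le A (q a) hx) ?_
      rcases hψv a _ (Y409.GA.supNorm_zz_le A (hq0 a)) with h | h
      · exact h
      · have := supNorm_pos hz0
        omega
    · have h1 := Y409.GA.supNorm_zz_ge A (q a)
      have h2 := hqN a
      omega
  have hpos : 0 < volume (Metric.closedBall (0 : Fin d → ℝ) 1) :=
    Metric.measure_closedBall_pos volume 0 one_pos
  have h1 : Measure.hausdorffMeasure (d : ℝ) (Metric.closedBall (0 : Fin d → ℝ) 1) =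
      volume (Metric.closedBall (0 : Fin d → ℝ) 1) := by
    have := hausdorffMeasure_pi_real (ι := Fin d)
    rw [Fintype.card_fin] at this
    rw [this]
  have h2 := Measure.hausdorffMeasure_mono hs2 (Metric.closedBall (0 : Fin d → ℝ) 1)
  rw [h1, measure_mono_null hsub hvol] at h2
  exact absurd (le_antisymm h2 zero_le) hpos.ne'

end Pool.Agent.KS6_51.HG
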