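import Pool.Agent.KS6_51.HG.H4
import Pool.Agent.KS6_51.HG.H5
import Pool.Agent.KS6_51.HG.H8

set_option autoImplicit false

/-!
The Khintchine–Jarník theorem for the affine subspaces `L_A`: assembly.
-/

namespace Pool.Agent.KS6_51.HG

open MeasureTheory Filter Topology Set
open scoped ENNReal
open Pool.Agent.H639R3.G Pool.Agent.Y762.GA
open Pool.Agent

variable {d m : ℕ}

theorem hausdorff_eq_volume (d : ℕ) :
    (Measure.hausdorffMeasure (d : ℝ) : Measure (Fin d → ℝ)) = volume := by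
  have := hausdorffMeasure_pi_real (ι := Fin d)
  rwa [Fintype.card_fin] at this

theorem summable_at_d (hm : 0 < m) (ψ : ℕ → ℝ) :
    Summable (fun k : ℕ => (k : ℝ) ^ (d + m) * (ψ k / k) ^ ((d : ℝ) - (d - 1))) ↔
      Summable (fun k : ℕ => (k : ℝ) ^ (d + m - 1) * ψ k) := by
  have e : ∀ k : ℕ, 1 ≤ k → (k : ℝ) ^ (d + m) * (ψ k / k) ^ ((d : ℝ) - (d - 1)) =
      (k : ℝ) ^ (d + m - 1) * ψ k := by
    intro k hk
    have hk0 : (0 : ℝ) < k := by exact_mod_cast hk
    have h1 : ((d : ℝ) - (d - 1)) = 1 := by ring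
    rw [h1, Real.rpow_one]
    have h2 : (k : ℝ) ^ (d + m) = (k : ℝ) ^ (d + m - 1) * k := by
      rw [← pow_succ]
      congr 1
      omega
    rw [h2]
    field_simp
  rw [← summable_nat_add_iff 1, ← summable_nat_add_iff (f := fun k : ℕ => (k : ℝ) ^ (d + m - 1) * ψ k) 1]
  apply summable_congr
  intro k
  exact e (k + 1) (by omega)

/-- **Divergence, for countable families.** -/
theorem div_family (hd : 0 < d) {s : ℝ} (hs1 : (d : ℝ) - 1 < s) (hs2 : s ≤ d) (m : ℕ → ℕ)
    (hm : ∀ i, 0 < m i) (A : ∀ i, Matrix (Fin (d + 1)) (Fin (m i)) ℝ)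
    (hA : ∀ i, Low (A i)) (ψ : ℕ → ℕ → ℝ) (hψ : ∀ i, Admissible (ψ i))
    (hdiv : ∀ i, ¬ Summable (fun k : ℕ => (k : ℝ) ^ (d + m i) * (ψ i k / k) ^ (s - (d - 1))))
    (V : Set (Fin d → ℝ)) (hV : IsOpen V) :
    Measure.hausdorffMeasure s (V ∩ {x : Fin d → ℝ | ∀ i, point (A i) x ∈ W (ψ i)}) =
      Measure.hausdorffMeasure s V := by
  have hd1 : (1 : ℝ) ≤ d := by exact_mod_cast hd
  rcases hs2.eq_or_lt with h | h
  · subst h
    rw [hausdorff_eq_volume]
    apply measure_congr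
    have h1 : ∀ᵐ x ∂(volume : Measure (Fin d → ℝ)), ∀ i, point (A i) x ∈ W (ψ i) := by
      rw [ae_all_iff]
      intro i
      rw [ae_iff]
      exact divergence_of_low hd (hm i) (hA i) (ψ i) (hψ i)
        (fun h => hdiv i ((summable_at_d (hm i) (ψ i)).mpr h))
    filter_upwards [h1] with x hx
    apply propext
    constructor
    · exact fun h => h.1
    · exact fun h => ⟨h, hx⟩
  · rcases V.eq_empty_or_nonempty with h0 | h0
    · rw [h0, empty_inter]
    · have hs0 : 0 < s := by linarith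
      set F : ℕ × ℕ → Set (Fin d → ℝ) := fun p => UN (A p.1) (ψ p.1) p.2 with hF
      set U : ℕ → Set (Fin d → ℝ) := fun k => F k.unpair with hU
      have hUo : ∀ k, IsOpen (U k) := fun k => isOpen_UN _ _ _
      have hUF : ∀ k, BW.Full s (U k) := by
        intro k
        obtain ⟨c, hc⟩ := (hA k.unpair.1).crit
        exact full_UN hd hs1 hs2 _ c hc _ (hψ _) (hdiv _) _
      have h1 := measure_open_top hd hs0 h U hUo hUF V hV h0
      have h2 : Measure.hausdorffMeasure s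
          (V ∩ {x : Fin d → ℝ | ∀ i, point (A i) x ∈ W (ψ i)}) = ⊤ := by
        apply top_le_iff.mp
        rw [← h1]
        apply measure_mono
        rintro x ⟨hx1, hx2⟩
        refine ⟨hx1, fun i => mem_W_of_UN fun N => ?_⟩
        have h3 : x ∈ F (Nat.unpair (Nat.pair i N)) := hx2 (Nat.pair i N)
        rw [Nat.unpair_pair] at h3
        exact h3
      rw [h2]
      apply le_antisymm _ le_top
      rw [← h2]
      exact measure_mono inter_subset_left

/-- the criterion with a real exponent -/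
def LowR (A : Matrix (Fin (d + 1)) (Fin m) ℝ) (τ : ℝ) : Prop :=
  ∃ c : ℝ, 0 < c ∧ ∀ q : Fin m → ℤ, q ≠ 0 → c ≤ (supNorm q : ℝ) ^ τ * distIntVec (ev A q)

theorem low_iff (A : Matrix (Fin (d + 1)) (Fin m) ℝ) : Low A ↔ LowR A ((d + m : ℕ) : ℝ) := by
  unfold Low LowR
  simp only [Real.rpow_natCast]

theorem LowR.mono {A : Matrix (Fin (d + 1)) (Fin m) ℝ} {τ τ' : ℝ} (h : LowR A τ) (hτ : τ ≤ τ') :
    LowR A τ' := by
  obtain ⟨c, hc, h⟩ := h
  refine ⟨c, hc, fun q hq => (h q hq).trans ?_⟩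
  apply mul_le_mul_of_nonneg_right _ (distIntVec_nonneg _)
  apply Real.rpow_le_rpow_of_exponent_le _ hτ
  exact_mod_cast supNorm_pos hq

theorem lowR_of_exponent_lt {A : Matrix (Fin (d + 1)) (Fin m) ℝ} {τ : ℝ}
    (hA : exponent A < (τ : EReal)) : LowR A τ := by
  have hfin : {q : Fin m → ℤ | distIntVec (ev A q) < (supNorm q : ℝ) ^ (-τ)}.Finite := by
    by_contra hcon
    have : (τ : EReal) ≤ exponent A := by
      apply le_sSup
      exact ⟨τ, hcon, rfl⟩
    exact absurd hA (not_lt.2 this)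
  have hpos : ∀ q : Fin m → ℤ, q ≠ 0 → 0 < distIntVec (ev A q) := by
    intro q hq
    by_contra hcon
    have h0 : distIntVec (ev A q) = 0 := le_antisymm (not_lt.1 hcon) (distIntVec_nonneg _)
    apply hfin.not_infinite
    apply Set.infinite_of_injective_forall_mem (f := fun k : ℕ => ((k : ℤ) + 1) • q)
    · intro k l hkl
      obtain ⟨i, hi⟩ := Function.ne_iff.1 hq
      have := congrFun hkl i
      simp only [Pi.smul_apply, smul_eq_mul] at this
      have := mul_right_cancel₀ hi this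
      omega
    · intro k
      have hne : ((k : ℤ) + 1) • q ≠ 0 := smul_ne_zero (by omega) hq
      have h2 : (0 : ℝ) < (supNorm (((k : ℤ) + 1) • q) : ℝ) ^ (-τ) := by
        apply Real.rpow_pos_of_pos
        exact_mod_cast supNorm_pos hne
      show distIntVec (ev A (((k : ℤ) + 1) • q)) < _
      rw [Y409.GA.dist_smul_zero A q h0]
      exact h2
  obtain ⟨c, hc0, hc1, hc⟩ := exists_pos_le_finite (hfin.subset (sep_subset _ (fun q => q ≠ 0)))
    (fun q => (supNorm q : ℝ) ^ τ * distIntVec (ev A q)) (fun q hq => mul_pos (by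
      apply Real.rpow_pos_of_pos
      exact_mod_cast supNorm_pos hq.2) (hpos q hq.2))
  refine ⟨c, hc0, fun q hq => ?_⟩
  have h1 : (0 : ℝ) < supNorm q := by exact_mod_cast supNorm_pos hq
  by_cases hmem : distIntVec (ev A q) < (supNorm q : ℝ) ^ (-τ)
  · exact hc q ⟨hmem, hq⟩
  · push Not at hmem
    refine hc1.trans ?_
    calc (1 : ℝ) = (supNorm q : ℝ) ^ τ * (supNorm q : ℝ) ^ (-τ) := by
          rw [← Real.rpow_add h1, add_neg_cancel, Real.rpow_zero]
      _ ≤ _ := by gcongr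

theorem not_lowR_of_lt_exponent {A : Matrix (Fin (d + 1)) (Fin m) ℝ} {τ : ℝ}
    (hA : (τ : EReal) < exponent A) : ¬ LowR A τ := by
  rintro ⟨c, hc, h⟩
  obtain ⟨a, ⟨ω, hω, rfl⟩, hlt⟩ := lt_sSup_iff.1 hA
  have hlt' : τ < ω := EReal.coe_lt_coe_iff.1 hlt
  have hinf : {q : Fin m → ℤ | distIntVec (ev A q) < (supNorm q : ℝ) ^ (-ω)}.Infinite := hω
  have hlim : Filter.Tendsto (fun k : ℕ => (k : ℝ) ^ (-(ω - τ))) Filter.atTop
      (nhds 0) := (tendsto_rpow_neg_atTop (by linarith)).comp tendsto_natCast_atTop_atTop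
  obtain ⟨N, hN⟩ := Filter.eventually_atTop.1 (hlim.eventually_lt_const hc)
  apply hinf
  apply (box m (max N 1)).finite_toSet.subset
  intro q hq
  apply mem_box.2
  apply supNorm_le_iff.1
  by_contra hcon
  push Not at hcon
  have hq0 : q ≠ 0 := by
    rintro rfl
    have : supNorm (0 : Fin m → ℤ) = 0 := by
      apply Nat.le_zero.1
      exact supNorm_le_iff.2 (by simp)
    omega
  have hpos : (0 : ℝ) < supNorm q := by exact_mod_cast supNorm_pos hq0
  have h1 := h q hq0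
  have h2 : distIntVec (ev A q) < (supNorm q : ℝ) ^ (-ω) := hq
  have h3 := hN (supNorm q) (by omega)
  have h4 : (supNorm q : ℝ) ^ (-(ω - τ))
      = (supNorm q : ℝ) ^ τ * (supNorm q : ℝ) ^ (-ω) := by
    rw [← Real.rpow_add hpos]
    congr 1; ring
  rw [h4] at h3
  have h5 : (supNorm q : ℝ) ^ τ * distIntVec (ev A q)
      ≤ (supNorm q : ℝ) ^ τ * (supNorm q : ℝ) ^ (-ω) := by
    gcongr
  linarith

/-- **Convergence at the dimension `s`: the exact criterion.** -/
theorem conv_iff (hd : 0 < d) (hm : 0 < m) {s : ℝ} (hs1 : (d : ℝ) - 1 < s) (hs2 : s ≤ d)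
    (A : Matrix (Fin (d + 1)) (Fin m) ℝ) :
    (∀ ψ : ℕ → ℝ, Admissible ψ →
      Summable (fun k : ℕ => (k : ℝ) ^ (d + m) * (ψ k / k) ^ (s - (d - 1))) →
      Measure.hausdorffMeasure s {x : Fin d → ℝ | point A x ∈ W ψ} = 0) ↔
    LowR A (tau d m s) := by
  constructor
  · exact nec hd hm hs1 hs2 A
  · rintro ⟨c, hc, h⟩ ψ hψ hs
    exact conv hd hm hs1 hs2 A hc h ψ hψ hs

/-- the approximating function `k ↦ k ^ (-τ)` -/
noncomputable def pw (τ : ℝ) : ℕ → ℝ := fun k => (k : ℝ) ^ (-τ)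

theorem pw_admissible {τ : ℝ} (hτ : 0 ≤ τ) : Admissible (pw τ) := by
  constructor
  · intro k hk
    have : (0 : ℝ) < k := by exact_mod_cast hk
    exact Real.rpow_pos_of_pos this _
  · intro j k hj hjk
    have h2 : (0 : ℝ) < j := by exact_mod_cast hj
    exact Real.rpow_le_rpow_of_nonpos h2 (by exact_mod_cast hjk) (by linarith)

theorem summable_pw_iff {n : ℕ} (τ : ℝ) {η : ℝ} :
    Summable (fun k : ℕ => (k : ℝ) ^ n * (pw τ k / k) ^ η) ↔ (n : ℝ) + 1 < (τ + 1) * η := by
  have e : ∀ k : ℕ, 1 ≤ k → (k : ℝ) ^ n * (pw τ k / k) ^ η = (k : ℝ) ^ ((n : ℝ) - (τ + 1) * η) := by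
    intro k hk
    have hk0 : (0 : ℝ) < k := by exact_mod_cast hk
    have h1 : pw τ k / k = (k : ℝ) ^ (-(τ + 1)) := by
      unfold pw
      rw [neg_add, ← sub_eq_add_neg, Real.rpow_sub hk0, Real.rpow_one]
    rw [h1, ← Real.rpow_mul hk0.le, ← Real.rpow_natCast, ← Real.rpow_add hk0]
    congr 1
    ring
  rw [← summable_nat_add_iff 1]
  have : Summable (fun k : ℕ => ((k + 1 : ℕ) : ℝ) ^ n * (pw τ (k + 1) / ((k + 1 : ℕ) : ℝ)) ^ η) ↔
      Summable (fun k : ℕ => ((k + 1 : ℕ) : ℝ) ^ ((n : ℝ) - (τ + 1) * η)) := by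
    apply summable_congr
    intro k
    exact e (k + 1) (by omega)
  rw [this, summable_nat_add_iff (f := fun k : ℕ => (k : ℝ) ^ ((n : ℝ) - (τ + 1) * η)) 1,
    Real.summable_nat_rpow]
  constructor <;> intro h <;> linarith

/-- the upper bound for the dimension -/
theorem dim_le (hd : 0 < d) (hm : 0 < m) (A : Matrix (Fin (d + 1)) (Fin m) ℝ) {τ : ℝ}
    (hτ : (d + m : ℝ) ≤ τ) (hA : (d + m : ℝ) < τ → ∃ τ₁ : ℝ, τ₁ < τ ∧ LowR A τ₁) :
    dimH {x : Fin d → ℝ | point A x ∈ W (pw τ)} ≤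
      ENNReal.ofReal (d - 1 + (d + m + 1) / (τ + 1)) := by
  have hd1 : (1 : ℝ) ≤ d := by exact_mod_cast hd
  have hm1 : (1 : ℝ) ≤ m := by exact_mod_cast hm
  have hτ0 : 0 < τ + 1 := by linarith
  set s₀ : ℝ := d - 1 + (d + m + 1) / (τ + 1) with hs₀
  have hη0 : 0 < ((d : ℝ) + m + 1) / (τ + 1) := by positivity
  rcases eq_or_lt_of_le hτ with h | h
  · have h1 : s₀ = d := by
      rw [hs₀, ← h]
      have : (d : ℝ) + m + 1 ≠ 0 := by positivity
      field_simp
      ring
    rw [h1]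
    calc dimH {x : Fin d → ℝ | point A x ∈ W (pw τ)} ≤ dimH (univ : Set (Fin d → ℝ)) :=
          dimH_mono (subset_univ _)
      _ = (d : ℝ≥0∞) := Real.dimH_univ_pi_fin d
      _ = _ := by rw [ENNReal.ofReal_natCast]
  · obtain ⟨τ₂, hτ₂, hA₂⟩ := hA h
    set τ₁ : ℝ := max τ₂ (d + m) with hτ₁
    have hA₁ : LowR A τ₁ := hA₂.mono (le_max_left _ _)
    have hτ₁n : (d + m : ℝ) ≤ τ₁ := le_max_right _ _
    have hτ₁τ : τ₁ < τ := max_lt hτ₂ h
    have hτ₁0 : 0 < τ₁ + 1 := by linarith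
    set s₁ : ℝ := d - 1 + (d + m + 1) / (τ₁ + 1) with hs₁
    have hs₀₁ : s₀ < s₁ := by
      rw [hs₀, hs₁]
      have : ((d : ℝ) + m + 1) / (τ + 1) < (d + m + 1) / (τ₁ + 1) := by
        apply div_lt_div_of_pos_left (by positivity) hτ₁0 (by linarith)
      linarith
    have hs₁d : s₁ ≤ d := by
      rw [hs₁]
      have : ((d : ℝ) + m + 1) / (τ₁ + 1) ≤ 1 := by
        rw [div_le_one hτ₁0]
        linarith
      linarith
    -- all s with s₀ < s ≤ s₁
    have key : ∀ s : ℝ, s₀ < s → s ≤ s₁ →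
        dimH {x : Fin d → ℝ | point A x ∈ W (pw τ)} ≤ ENNReal.ofReal s := by
      intro s h1 h2
      have hs1 : (d : ℝ) - 1 < s := by linarith
      have hη : 0 < s - (d - 1) := by linarith
      have hlt : ((d : ℝ) + m) + 1 < (τ + 1) * (s - (d - 1)) := by
        have : ((d : ℝ) + m + 1) / (τ + 1) < s - (d - 1) := by
          rw [hs₀] at h1
          linarith
        rw [div_lt_iff₀ hτ0] at this
        linarith
      have hτs : τ₁ ≤ tau d m s := by
        unfold tau
        have h3 : s - (d - 1) ≤ ((d : ℝ) + m + 1) / (τ₁ + 1) := by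
          rw [hs₁] at h2
          linarith
        rw [le_div_iff₀ hτ₁0] at h3
        have : τ₁ + 1 ≤ ((d : ℝ) + m + 1) / (s - (d - 1)) := by
          rw [le_div_iff₀ hη]
          linarith
        linarith
      have h3 := (conv_iff hd hm hs1 (h2.trans hs₁d) A).mpr (hA₁.mono hτs) (pw τ)
        (pw_admissible (by linarith)) ((summable_pw_iff (n := d + m) τ).mpr (by
          push_cast
          exact hlt))
      have h4 : dimH {x : Fin d → ℝ | point A x ∈ W (pw τ)} ≤ (s.toNNReal : ℝ≥0∞) := by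
        apply dimH_le_of_hausdorffMeasure_ne_top
        rw [Real.coe_toNNReal _ (by linarith), h3]
        exact ENNReal.zero_ne_top
      exact h4
    apply le_of_forall_gt
    intro b hb
    obtain ⟨b', hb1, hb2⟩ := exists_between hb
    have hpos : 0 < s₀ := by rw [hs₀]; linarith
    rcases le_total b' (ENNReal.ofReal s₁) with h1 | h1
    · have hb't : b' ≠ ⊤ := ne_top_of_lt hb2
      have e : b' = ENNReal.ofReal b'.toReal := (ENNReal.ofReal_toReal hb't).symm
      have h5 : s₀ < b'.toReal := by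
        rw [e] at hb1
        exact (ENNReal.ofReal_lt_ofReal_iff_of_nonneg hpos.le).mp hb1
      have h6 : b'.toReal ≤ s₁ := by
        rw [e, ENNReal.ofReal_le_ofReal_iff (by linarith)] at h1
        exact h1
      have := key b'.toReal h5 h6
      rw [← e] at this
      exact this.trans_lt hb2
    · exact (key s₁ hs₀₁ le_rfl).trans_lt (h1.trans_lt hb2)

/-- **The dimension formula.** -/
theorem dim_eq (hd : 0 < d) (hm : 0 < m) (A : Matrix (Fin (d + 1)) (Fin m) ℝ) (hA : Low A) {τ : ℝ}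
    (hτ : (d + m : ℝ) ≤ τ) :
    dimH {x : Fin d → ℝ | point A x ∈ W (pw τ)} =
      ENNReal.ofReal (d - 1 + (d + m + 1) / (τ + 1)) := by
  have hd1 : (1 : ℝ) ≤ d := by exact_mod_cast hd
  have hm1 : (1 : ℝ) ≤ m := by exact_mod_cast hm
  have hτ0 : 0 < τ + 1 := by linarith
  have hη0 : 0 < ((d : ℝ) + m + 1) / (τ + 1) := by positivity
  have hη1 : ((d : ℝ) + m + 1) / (τ + 1) ≤ 1 := by
    rw [div_le_one hτ0]
    linarith
  apply le_antisymm
  · apply dim_le hd hm A hτ
    intro h1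
    have h2 := (low_iff A).mp hA
    push_cast at h2
    exact ⟨_, h1, h2⟩
  · set s : ℝ := d - 1 + (d + m + 1) / (τ + 1) with hs
    have hs1 : (d : ℝ) - 1 < s := by rw [hs]; linarith
    have hs2 : s ≤ d := by rw [hs]; linarith
    have h1 := div_family hd hs1 hs2 (fun _ => m) (fun _ => hm) (fun _ => A) (fun _ => hA)
      (fun _ => pw τ) (fun _ => pw_admissible (by linarith)) (fun _ => by
        rw [summable_pw_iff (n := d + m) τ]
        push_cast
        have : s - (d - 1) = ((d : ℝ) + m + 1) / (τ + 1) := by rw [hs]; ring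
        rw [this, mul_div_cancel₀ _ hτ0.ne']
        simp) (Metric.ball 0 1) Metric.isOpen_ball
    have h2 : Measure.hausdorffMeasure s {x : Fin d → ℝ | point A x ∈ W (pw τ)} ≠ 0 := by
      intro h0
      have h3 : Measure.hausdorffMeasure s (Metric.ball (0 : Fin d → ℝ) 1) = 0 := by
        rw [← h1]
        apply measure_mono_null _ h0
        rintro x ⟨_, hx⟩
        exact hx 0
      have h4 := Measure.hausdorffMeasure_mono hs2 (Metric.ball (0 : Fin d → ℝ) 1)
      rw [h3, hausdorff_eq_volume] at h4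
      exact absurd (le_antisymm h4 zero_le) (Metric.measure_ball_pos volume 0 one_pos).ne'
    have h5 := le_dimH_of_hausdorffMeasure_ne_zero (s := {x : Fin d → ℝ | point A x ∈ W (pw τ)})
      (d := s.toNNReal) (by
        rw [Real.coe_toNNReal _ (by linarith)]
        exact h2)
    exact h5

end Pool.Agent.KS6_51.HG
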